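import Pool.Agent.TH271.FF.Defs

set_option autoImplicit false

namespace Pool.Agent.TH271.FF

open Finset
open scoped Classical

theorem grouping {α β : Type} (F : Finset α) (c : α → β) (C M : ℕ) (hM : 1 ≤ M)
    (hC : (F.image c).card ≤ C) :
    ∃ 𝒢 : Finset (Finset α), (∀ g ∈ 𝒢, g ⊆ F ∧ g.card = M ∧ ∀ x ∈ g, ∀ y ∈ g, c x = c y) ∧
      (𝒢 : Set (Finset α)).PairwiseDisjoint id ∧ F.card ≤ M * 𝒢.card + M * C := by
  induction hn : F.card using Nat.strong_induction_on generalizing F with
  | _ n ih =>
    by_cases hle : F.card ≤ M * C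
    · refine ⟨∅, by simp, by simp, ?_⟩
      rw [card_empty, mul_zero, zero_add, ← hn]
      exact hle
    · push Not at hle
      have hlt : (F.image c).card * M < F.card := by
        calc (F.image c).card * M ≤ C * M := Nat.mul_le_mul_right M hC
          _ = M * C := Nat.mul_comm _ _
          _ < F.card := hle
      obtain ⟨b, -, hb⟩ := exists_lt_card_fiber_of_mul_lt_card_of_maps_to
        (fun a ha => mem_image_of_mem c ha) hlt
      obtain ⟨g, hg, hgM⟩ := exists_subset_card_eq hb.le
      have hgF : g ⊆ F := hg.trans (filter_subset _ _)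
      have hcard : (F \ g).card + M = F.card := by
        rw [← hgM]
        exact card_sdiff_add_card_eq_card hgF
      obtain ⟨𝒢, h1, h2, h3⟩ := ih (F \ g).card (by omega) (F \ g)
        ((card_le_card (image_subset_image sdiff_subset)).trans hC) rfl
      have hgn : g ∉ 𝒢 := by
        intro hmem
        obtain ⟨h4, -, -⟩ := h1 g hmem
        obtain ⟨x, hx⟩ := card_pos.1 (by omega : 0 < g.card)
        exact (mem_sdiff.1 (h4 hx)).2 hx
      refine ⟨insert g 𝒢, ?_, ?_, ?_⟩
      · intro k hk
        rcases mem_insert.1 hk with rfl | hk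
        · refine ⟨hgF, hgM, fun x hx y hy => ?_⟩
          rw [(mem_filter.1 (hg hx)).2, (mem_filter.1 (hg hy)).2]
        · obtain ⟨h4, h5, h6⟩ := h1 k hk
          exact ⟨h4.trans sdiff_subset, h5, h6⟩
      · rw [coe_insert]
        refine h2.insert fun k hk _ => ?_
        obtain ⟨h4, -, -⟩ := h1 k (mem_coe.1 hk)
        change Disjoint g k
        rw [disjoint_left]
        intro x hx hxk
        exact (mem_sdiff.1 (h4 hxk)).2 hx
      · rw [card_insert_of_notMem hgn, Nat.mul_succ]
        omega

end Pool.Agent.TH271.FF
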