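import Pool.Agent.TH271.FF.Defs

set_option autoImplicit false

namespace Pool.Agent.TH271.FF

open Finset
open scoped Classical

namespace PJ

/-- the product is at least a power of one factor -/
lemma prod_ge (a b l d : ℕ) (hab : a = b + l) (hl : 1 ≤ l) (hd : d ≤ a) :
    (max 0 (1 - (d : ℝ) / (b + 1))) ^ l ≤ ∏ i ∈ Ioc b a, (((i : ℝ) - d) / i) := by
  have hb1 : (0 : ℝ) < (b : ℝ) + 1 := by positivity
  by_cases hdb : d ≤ b
  · have hu : max 0 (1 - (d : ℝ) / (b + 1)) = 1 - (d : ℝ) / (b + 1) := by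
      apply max_eq_right
      rw [sub_nonneg, div_le_one hb1]
      have : (d : ℝ) ≤ b := by exact_mod_cast hdb
      linarith
    have hu0 : 0 ≤ 1 - (d : ℝ) / (b + 1) := by rw [← hu]; exact le_max_left _ _
    rw [hu]
    have hcard : (Ioc b a).card = l := by rw [Nat.card_Ioc]; omega
    rw [← hcard, ← prod_const]
    apply prod_le_prod
    · intro i _
      exact hu0
    · intro i hi
      rw [mem_Ioc] at hi
      have hi0 : (0 : ℝ) < i := by
        have : 0 < i := by omega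
        exact_mod_cast this
      have hbi : (b : ℝ) + 1 ≤ i := by exact_mod_cast hi.1
      rw [sub_div, div_self hi0.ne']
      have : (d : ℝ) / i ≤ (d : ℝ) / (b + 1) :=
        div_le_div_of_nonneg_left (Nat.cast_nonneg d) hb1 hbi
      linarith
  · push Not at hdb
    have hu : max 0 (1 - (d : ℝ) / (b + 1)) = 0 := by
      apply max_eq_left
      rw [sub_nonpos, le_div_iff₀ hb1, one_mul]
      exact_mod_cast hdb
    have hprod : ∏ i ∈ Ioc b a, (((i : ℝ) - d) / i) = 0 := by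
      apply prod_eq_zero (mem_Ioc.2 ⟨hdb, hd⟩)
      simp
    rw [hu, hprod, zero_pow (by omega)]

/-- number of differing pairs in one coordinate -/
lemma one_coord {α : Type} (g : Finset α) (f : α → Bool) :
    ∑ x ∈ g, ∑ y ∈ g, (if f x ≠ f y then (1 : ℝ) else 0) ≤ (g.card : ℝ) ^ 2 / 2 := by
  set X : α → ℝ := fun x => if f x then 1 else 0 with hX
  have h1 : ∀ x y, (if f x ≠ f y then (1 : ℝ) else 0) = X x + X y - 2 * (X x * X y) := by
    intro x y
    simp only [hX]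
    cases f x <;> cases f y <;> norm_num
  have h2 : ∑ x ∈ g, ∑ y ∈ g, (if f x ≠ f y then (1 : ℝ) else 0) =
      2 * g.card * (∑ x ∈ g, X x) - 2 * (∑ x ∈ g, X x) ^ 2 := by
    simp only [h1]
    have h3 : ∀ x ∈ g, ∑ y ∈ g, (X x + X y - 2 * (X x * X y)) =
        g.card * X x + (∑ y ∈ g, X y) - 2 * (X x * ∑ y ∈ g, X y) := by
      intro x _
      rw [sum_sub_distrib, sum_add_distrib, sum_const, nsmul_eq_mul, ← mul_sum, ← mul_sum]
    rw [sum_congr rfl h3, sum_sub_distrib, sum_add_distrib, sum_const, nsmul_eq_mul, ← mul_sum,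
      ← mul_sum, ← sum_mul]
    ring
  rw [h2]
  nlinarith [sq_nonneg ((g.card : ℝ) - 2 * ∑ x ∈ g, X x)]

lemma dst_eq {Y : Type} {N : ℕ} {S : Finset (Fin N)} {x y : Pt Y N} (h : Agr S x y) :
    (dst x y : ℝ) = ∑ v ∈ S, (if x.2 v ≠ y.2 v then (1 : ℝ) else 0) := by
  have h1 : (univ.filter (fun v => x.2 v ≠ y.2 v)) = S.filter (fun v => x.2 v ≠ y.2 v) := by
    ext v
    simp only [mem_filter, mem_univ, true_and]
    constructor
    · intro hv
      refine ⟨?_, hv⟩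
      by_contra hvS
      exact hv (h.2 v hvS)
    · exact fun hv => hv.2
  unfold dst
  rw [h1, card_filter]
  push_cast
  rfl

lemma dst_le {Y : Type} {N : ℕ} {S : Finset (Fin N)} {x y : Pt Y N} (h : Agr S x y) :
    dst x y ≤ S.card := by
  unfold dst
  apply card_le_card
  intro v hv
  rw [mem_filter] at hv
  by_contra hvS
  exact hv.2 (h.2 v hvS)

lemma plotkin {Y : Type} {N : ℕ} (g : Finset (Pt Y N)) (S : Finset (Fin N))
    (hagr : ∀ x ∈ g, ∀ y ∈ g, Agr S x y) :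
    ∑ p ∈ g.offDiag, (dst p.1 p.2 : ℝ) ≤ (S.card : ℝ) * ((g.card : ℝ) ^ 2 / 2) := by
  have h1 : ∑ p ∈ g.offDiag, (dst p.1 p.2 : ℝ) ≤ ∑ p ∈ g ×ˢ g, (dst p.1 p.2 : ℝ) := by
    apply sum_le_sum_of_subset_of_nonneg
    · intro p hp
      rw [mem_offDiag] at hp
      exact mem_product.2 ⟨hp.1, hp.2.1⟩
    · intro p _ _
      exact Nat.cast_nonneg _
  refine h1.trans ?_
  rw [sum_product]
  have h2 : ∑ x ∈ g, ∑ y ∈ g, (dst x y : ℝ) =
      ∑ v ∈ S, ∑ x ∈ g, ∑ y ∈ g, (if x.2 v ≠ y.2 v then (1 : ℝ) else 0) := by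
    symm
    rw [sum_comm]
    refine sum_congr rfl fun x hx => ?_
    rw [sum_comm]
    exact sum_congr rfl fun y hy => (dst_eq (hagr x hx y hy)).symm
  rw [h2]
  calc ∑ v ∈ S, ∑ x ∈ g, ∑ y ∈ g, (if x.2 v ≠ y.2 v then (1 : ℝ) else 0)
      ≤ ∑ _v ∈ S, (g.card : ℝ) ^ 2 / 2 := sum_le_sum fun v _ => one_coord g (fun x => x.2 v)
    _ = (S.card : ℝ) * ((g.card : ℝ) ^ 2 / 2) := by rw [sum_const, nsmul_eq_mul]

end PJ

open PJ

theorem plotkin_jensen {Y : Type} {N : ℕ} (g : Finset (Pt Y N)) (S : Finset (Fin N))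
    (a b l M : ℕ) (hS : S.card = a) (hab : a = b + l) (hl : 1 ≤ l) (hb : 8 * l ^ 2 ≤ b)
    (hM : 4 * l + 1 ≤ M) (hg : g.card = M) (hagr : ∀ x ∈ g, ∀ y ∈ g, Agr S x y) :
    (M : ℝ) * (M - 1) / 2 ^ (l + 1) ≤
      ∑ p ∈ g.offDiag, ∏ i ∈ Ioc b a, (((i : ℝ) - dst p.1 p.2) / i) := by
  obtain ⟨u, hu⟩ : ∃ u : Pt Y N × Pt Y N → ℝ,
      u = fun p => max 0 (1 - (dst p.1 p.2 : ℝ) / (b + 1)) := ⟨_, rfl⟩
  have hu0 : ∀ p, 0 ≤ u p := fun p => by rw [hu]; exact le_max_left _ _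
  have h1 : ∑ p ∈ g.offDiag, u p ^ l ≤
      ∑ p ∈ g.offDiag, ∏ i ∈ Ioc b a, (((i : ℝ) - dst p.1 p.2) / i) := by
    apply sum_le_sum
    intro p hp
    rw [mem_offDiag] at hp
    have hd : dst p.1 p.2 ≤ a := by
      rw [← hS]
      exact dst_le (hagr _ hp.1 _ hp.2.1)
    rw [hu]
    exact prod_ge a b l _ hab hl hd
  refine le_trans ?_ h1
  -- cardinality
  have hlR : (1 : ℝ) ≤ l := by exact_mod_cast hl
  have hMR : 4 * (l : ℝ) + 1 ≤ M := by exact_mod_cast hM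
  have hbR : 8 * (l : ℝ) ^ 2 ≤ b := by exact_mod_cast hb
  have hcard : ((g.offDiag.card : ℕ) : ℝ) = (M : ℝ) * (M - 1) := by
    rw [offDiag_card, hg, Nat.cast_sub (Nat.le_mul_self M)]
    push_cast
    ring
  obtain ⟨T, hT⟩ : ∃ T : ℝ, T = (M : ℝ) * (M - 1) := ⟨_, rfl⟩
  have hTpos : 0 < T := by
    rw [hT]
    apply mul_pos <;> linarith
  have hb1 : (0 : ℝ) < (b : ℝ) + 1 := by positivity
  -- lower bound for the sum of u
  have h2 : T * ((1 / 2) * (1 - 1 / (2 * l))) ≤ ∑ p ∈ g.offDiag, u p := by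
    have h3 : ∑ p ∈ g.offDiag, (1 - (dst p.1 p.2 : ℝ) / (b + 1)) ≤ ∑ p ∈ g.offDiag, u p := by
      apply sum_le_sum
      intro p _
      rw [hu]
      exact le_max_right _ _
    refine le_trans ?_ h3
    rw [sum_sub_distrib, sum_const, nsmul_eq_mul, mul_one, hcard, ← sum_div, ← hT]
    have h4 := plotkin g S hagr
    rw [hS, hg] at h4
    have h5 : (∑ p ∈ g.offDiag, (dst p.1 p.2 : ℝ)) / (b + 1) ≤
        ((a : ℝ) * ((M : ℝ) ^ 2 / 2)) / (b + 1) := by
      gcongr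
    have h6 : ((a : ℝ) * ((M : ℝ) ^ 2 / 2)) / (b + 1) ≤
        T * (1 / 2 + 1 / (4 * l)) := by
      rw [div_le_iff₀ hb1]
      have haR : (a : ℝ) = b + l := by exact_mod_cast hab
      have hl0 : (0 : ℝ) < l := by linarith
      have hM0 : (0 : ℝ) < M := by linarith
      have e1 : 4 * (l : ℝ) * M ≤ (4 * l + 1) * (M - 1) := by nlinarith
      have e2 : ((b : ℝ) + l) * (4 * l + 1) ≤ (b + 1) * (4 * l + 2) := by nlinarith
      have e3 : ((b : ℝ) + l) * (4 * (l : ℝ) * M) ≤ (b + 1) * (4 * l + 2) * (M - 1) := by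
        calc ((b : ℝ) + l) * (4 * (l : ℝ) * M) ≤ ((b : ℝ) + l) * ((4 * l + 1) * (M - 1)) := by
              apply mul_le_mul_of_nonneg_left e1
              positivity
          _ = (((b : ℝ) + l) * (4 * l + 1)) * (M - 1) := by ring
          _ ≤ ((b + 1) * (4 * l + 2)) * (M - 1) := by
              apply mul_le_mul_of_nonneg_right e2
              linarith
      have e4 : T * (1 / 2 + 1 / (4 * l)) * (b + 1) =
          M * ((b + 1) * (4 * l + 2) * (M - 1)) / (8 * l) := by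
        rw [hT]
        field_simp
        ring
      rw [e4, haR, le_div_iff₀ (by positivity)]
      have e5 := mul_le_mul_of_nonneg_left e3 hM0.le
      calc ((b : ℝ) + l) * ((M : ℝ) ^ 2 / 2) * (8 * l) = M * (((b : ℝ) + l) * (4 * l * M)) := by
            ring
        _ ≤ _ := e5
    have h7 : T * ((1 / 2) * (1 - 1 / (2 * l))) = T - T * (1 / 2 + 1 / (4 * l)) := by
      have hl0 : (l : ℝ) ≠ 0 := by linarith
      field_simp
      ring
    rw [h7]
    linarith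
  -- Jensen
  have h8 : (∑ p ∈ g.offDiag, u p) ^ l / T ^ (l - 1) ≤ ∑ p ∈ g.offDiag, u p ^ l := by
    have := pow_sum_div_card_le_sum_pow (s := g.offDiag) (f := u) (fun p _ => hu0 p) (l - 1)
    rw [hcard, ← hT, Nat.sub_add_cancel hl] at this
    exact this
  refine le_trans ?_ h8
  rw [← hT, le_div_iff₀ (pow_pos hTpos _)]
  have hc0 : 0 ≤ (1 / 2 : ℝ) * (1 - 1 / (2 * l)) := by
    have : 1 / (2 * (l : ℝ)) ≤ 1 := by
      rw [div_le_one (by linarith)]
      linarith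
    apply mul_nonneg (by norm_num)
    linarith
  have h9 : (T * ((1 / 2) * (1 - 1 / (2 * l)))) ^ l ≤ (∑ p ∈ g.offDiag, u p) ^ l :=
    pow_le_pow_left₀ (mul_nonneg hTpos.le hc0) h2 l
  refine le_trans ?_ h9
  have h10 : (1 : ℝ) / 2 ≤ (1 - 1 / (2 * l)) ^ l := by
    have hb := one_add_mul_le_pow (a := -(1 / (2 * (l : ℝ)))) (by
      have : 1 / (2 * (l : ℝ)) ≤ 1 := by
        rw [div_le_one (by linarith)]
        linarith
      linarith) l
    have e1 : 1 + (l : ℝ) * -(1 / (2 * (l : ℝ))) = 1 / 2 := by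
      have hl0 : (l : ℝ) ≠ 0 := by linarith
      field_simp
      norm_num
    rw [e1] at hb
    rw [sub_eq_add_neg]
    exact hb
  rw [mul_pow, mul_pow]
  have h11 : T ^ l = T * T ^ (l - 1) := by
    rw [← pow_succ', Nat.sub_add_cancel hl]
  have h12 : T / 2 ^ (l + 1) * T ^ (l - 1) = T ^ l * ((1 / 2) ^ l * (1 / 2)) := by
    rw [h11, pow_succ, one_div, inv_pow]
    field_simp
  rw [h12]
  apply mul_le_mul_of_nonneg_left _ (pow_nonneg hTpos.le _)
  apply mul_le_mul_of_nonneg_left h10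
  positivity

end Pool.Agent.TH271.FF
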