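import Pool.Agent.TH271.FF.Defs

/-!
Averaging over the permutations `ρ` of the coordinates: a pair that agrees outside the first `a`
coordinates (in the order `ρ`) agrees outside the first `b` ones with the weight
`∏_{b < i ≤ a} (i - dst) / i`.
-/

set_option autoImplicit false

namespace Pool.Agent.TH271.FF

open Finset
open scoped Classical

namespace Swap

/-- the weight `∏_{b < i ≤ m} (i - dst) / i` -/
noncomputable def c {Y : Type} {N : ℕ} (b m : ℕ) (p : Pt Y N × Pt Y N) : ℝ :=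
  ∏ i ∈ Ioc b m, (((i : ℝ) - dst p.1 p.2) / i)

/-- the intermediate sums -/
noncomputable def Phi {Y : Type} {N : ℕ} (P : Finset (Fin N) → Finset (Pt Y N × Pt Y N))
    (a b m : ℕ) : ℝ :=
  ∑ ρ : Equiv.Perm (Fin N), ∑ p ∈ P (A ρ a), c b m p * (if Agr (A ρ m) p.1 p.2 then 1 else 0)

theorem swap_val_lt {N : ℕ} {a : ℕ} {i j : Fin N} (hi : i.val < a) (hj : j.val < a) (x : Fin N) :
    (Equiv.swap i j x).val < a ↔ x.val < a := by
  rw [Equiv.swap_apply_def]
  split_ifs with h1 h2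
  · subst h1; simp [hi, hj]
  · subst h2; simp [hi, hj]
  · rfl

theorem A_swap {N : ℕ} {a : ℕ} {i j : Fin N} (hi : i.val < a) (hj : j.val < a)
    (ρ : Equiv.Perm (Fin N)) : A (Equiv.swap i j * ρ) a = A ρ a := by
  ext v
  rw [mem_A, mem_A, Equiv.Perm.mul_apply, swap_val_lt hi hj]

theorem mem_A_swap {N : ℕ} {i j : Fin N} (hij : i.val ≤ j.val)
    (ρ : Equiv.Perm (Fin N)) (v : Fin N) :
    v ∈ A (Equiv.swap i j * ρ) j.val ↔ v ∈ A ρ (j.val + 1) ∧ ρ v ≠ i := by
  rw [mem_A, mem_A, Equiv.Perm.mul_apply, Equiv.swap_apply_def]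
  split_ifs with h1 h2
  · simp [h1]
  · rw [h2]
    constructor
    · intro h
      exact ⟨by omega, fun h' => h1 (h2.trans h')⟩
    · rintro ⟨-, h'⟩
      have : i.val ≠ j.val := fun h => h' (Fin.ext h.symm)
      omega
  · have : (ρ v).val ≠ j.val := fun h => h2 (Fin.ext h)
    constructor
    · intro h
      exact ⟨by omega, h1⟩
    · rintro ⟨h, -⟩
      omega

theorem agr_swap {Y : Type} {N : ℕ} {i j : Fin N} (hij : i.val ≤ j.val)
    (ρ : Equiv.Perm (Fin N)) (x y : Pt Y N) :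
    Agr (A (Equiv.swap i j * ρ) j.val) x y ↔
      Agr (A ρ (j.val + 1)) x y ∧ x.2 (ρ.symm i) = y.2 (ρ.symm i) := by
  unfold Agr
  constructor
  · rintro ⟨h1, h2⟩
    refine ⟨⟨h1, fun v hv => h2 v fun h => hv ((mem_A_swap hij ρ v).1 h).1⟩, h2 _ fun h => ?_⟩
    exact ((mem_A_swap hij ρ _).1 h).2 (by simp)
  · rintro ⟨⟨h1, h2⟩, h3⟩
    refine ⟨h1, fun v hv => ?_⟩
    by_cases hi : ρ v = i
    · have : ρ.symm i = v := by rw [← hi]; simp
      rwa [this] at h3
    · exact h2 v fun h => hv ((mem_A_swap hij ρ v).2 ⟨h, hi⟩)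

theorem count {Y : Type} {N : ℕ} {m : ℕ} (hm : m ≤ N) (ρ : Equiv.Perm (Fin N))
    (x y : Pt Y N) (h : Agr (A ρ m) x y) :
    (((univ.filter (fun i : Fin N => i.val < m)).filter
      (fun i => x.2 (ρ.symm i) = y.2 (ρ.symm i))).card : ℝ) = (m : ℝ) - dst x y := by
  have h1 : ((univ.filter (fun i : Fin N => i.val < m)).filter
      (fun i => ¬ x.2 (ρ.symm i) = y.2 (ρ.symm i))) =
      (univ.filter (fun v => x.2 v ≠ y.2 v)).map ρ.toEmbedding := by
    ext i
    simp only [mem_filter, mem_univ, true_and, mem_map, Equiv.coe_toEmbedding]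
    constructor
    · rintro ⟨-, h2⟩
      exact ⟨ρ.symm i, h2, by simp⟩
    · rintro ⟨v, hv, rfl⟩
      refine ⟨?_, by simpa using hv⟩
      by_contra h3
      exact hv (h.2 v fun h4 => h3 (mem_A.1 h4))
  have h2 := Finset.card_filter_add_card_filter_not (s := univ.filter (fun i : Fin N => i.val < m))
    (fun i => x.2 (ρ.symm i) = y.2 (ρ.symm i))
  rw [h1, card_map, Fin.card_filter_val_lt, min_eq_right hm] at h2
  unfold dst
  have h3 : (((((univ.filter (fun i : Fin N => i.val < m)).filter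
      (fun i => x.2 (ρ.symm i) = y.2 (ρ.symm i))).card +
      (univ.filter (fun v => x.2 v ≠ y.2 v)).card : ℕ) : ℝ)) = m := by
    exact_mod_cast h2
  push_cast at h3
  linarith

theorem step {Y : Type} {N : ℕ} (P : Finset (Fin N) → Finset (Pt Y N × Pt Y N)) (a b m : ℕ)
    (hbm : b ≤ m) (hma : m + 1 ≤ a) (haN : a ≤ N) : Phi P a b m = Phi P a b (m + 1) := by
  have hmN : m < N := by omega
  obtain ⟨j, hj⟩ : ∃ j : Fin N, j.val = m := ⟨⟨m, hmN⟩, rfl⟩
  have hm0 : ((m : ℝ) + 1) ≠ 0 := by positivity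
  -- each swap gives the same sum
  have h1 : ∀ i : Fin N, i.val < m + 1 → Phi P a b m =
      ∑ ρ : Equiv.Perm (Fin N), ∑ p ∈ P (A ρ a), c b m p *
        (if Agr (A ρ (m + 1)) p.1 p.2 ∧ p.1.2 (ρ.symm i) = p.2.2 (ρ.symm i) then 1 else 0) := by
    intro i hi
    unfold Phi
    rw [← Equiv.sum_comp (Equiv.mulLeft (Equiv.swap i j))]
    refine Finset.sum_congr rfl fun ρ _ => ?_
    rw [Equiv.coe_mulLeft, A_swap (by omega) (by omega)]
    refine Finset.sum_congr rfl fun p _ => ?_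
    have h2 := agr_swap (i := i) (j := j) (by omega) ρ p.1 p.2
    rw [hj] at h2
    simp only [h2]
  have h3 : ((m : ℝ) + 1) * Phi P a b m =
      ∑ i ∈ univ.filter (fun i : Fin N => i.val < m + 1),
        ∑ ρ : Equiv.Perm (Fin N), ∑ p ∈ P (A ρ a), c b m p *
          (if Agr (A ρ (m + 1)) p.1 p.2 ∧ p.1.2 (ρ.symm i) = p.2.2 (ρ.symm i) then 1 else 0) := by
    rw [← Finset.sum_congr rfl fun i hi => h1 i (mem_filter.1 hi).2, Finset.sum_const,
      Fin.card_filter_val_lt, min_eq_right hmN, nsmul_eq_mul]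
    push_cast
    ring
  have h4 : ((m : ℝ) + 1) * Phi P a b m = ((m : ℝ) + 1) * Phi P a b (m + 1) := by
    rw [h3, Finset.sum_comm]
    unfold Phi
    rw [Finset.mul_sum]
    refine Finset.sum_congr rfl fun ρ _ => ?_
    rw [Finset.sum_comm, Finset.mul_sum]
    refine Finset.sum_congr rfl fun p _ => ?_
    have h5 : c b (m + 1) p = c b m p * ((((m + 1 : ℕ) : ℝ) - dst p.1 p.2) / ((m + 1 : ℕ) : ℝ)) := by
      unfold c
      rw [← Finset.insert_Ioc_right_eq_Ioc_add_one hbm, Finset.prod_insert (by simp), mul_comm]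
    by_cases hA : Agr (A ρ (m + 1)) p.1 p.2
    · rw [h5]
      simp only [hA, true_and, if_true]
      rw [← Finset.mul_sum, Finset.sum_boole, count (by omega) ρ p.1 p.2 hA]
      push_cast
      field_simp
    · simp [hA]
  exact mul_left_cancel₀ hm0 h4

theorem steps {Y : Type} {N : ℕ} (P : Finset (Fin N) → Finset (Pt Y N × Pt Y N)) (a b : ℕ)
    (haN : a ≤ N) : ∀ k : ℕ, b + k ≤ a → Phi P a b b = Phi P a b (b + k) := by
  intro k
  induction k with
  | zero => intro _; rfl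
  | succ k ih =>
    intro h
    rw [ih (by omega), step P a b (b + k) (by omega) (by omega) haN]
    rfl

end Swap

theorem swap_avg {Y : Type} {N : ℕ} (P : Finset (Fin N) → Finset (Pt Y N × Pt Y N)) (a b : ℕ)
    (hba : b ≤ a) (haN : a ≤ N) (hP : ∀ S, ∀ p ∈ P S, Agr S p.1 p.2) :
    ∑ ρ : Equiv.Perm (Fin N),
        (((P (A ρ a)).filter (fun p => Agr (A ρ b) p.1 p.2)).card : ℝ) =
      ∑ ρ : Equiv.Perm (Fin N), ∑ p ∈ P (A ρ a), ∏ i ∈ Ioc b a, (((i : ℝ) - dst p.1 p.2) / i) := by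
  have h := Swap.steps P a b haN (a - b) (by omega)
  rw [Nat.add_sub_cancel' hba] at h
  have h1 : Swap.Phi P a b b = ∑ ρ : Equiv.Perm (Fin N),
        (((P (A ρ a)).filter (fun p => Agr (A ρ b) p.1 p.2)).card : ℝ) := by
    unfold Swap.Phi
    refine Finset.sum_congr rfl fun ρ _ => ?_
    rw [← Finset.sum_boole]
    refine Finset.sum_congr rfl fun p _ => ?_
    simp [Swap.c]
  have h2 : Swap.Phi P a b a = ∑ ρ : Equiv.Perm (Fin N), ∑ p ∈ P (A ρ a),
      ∏ i ∈ Ioc b a, (((i : ℝ) - dst p.1 p.2) / i) := by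
    unfold Swap.Phi
    refine Finset.sum_congr rfl fun ρ _ => ?_
    refine Finset.sum_congr rfl fun p hp => ?_
    rw [if_pos (hP _ p hp), mul_one]
    rfl
  rw [← h1, h, h2]

end Pool.Agent.TH271.FF
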