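import Pool.Agent.TH271.FF.Defs

set_option autoImplicit false

namespace Pool.Agent.TH271.FF

open Finset
open scoped Classical

namespace Window

theorem card_W {N : ℕ} (ρ : Equiv.Perm (Fin N)) (b i : ℕ) (hi : i ≤ b) :
    (A ρ b \ A ρ (b - i)).card ≤ i := by
  have h1 : (A ρ b \ A ρ (b - i)).card ≤ (Finset.Ico (b - i) b).card := by
    apply Finset.card_le_card_of_injOn (fun v => (ρ v).val)
    · intro v hv
      have hv' : v ∈ A ρ b \ A ρ (b - i) := hv
      rw [mem_sdiff, mem_A, mem_A] at hv'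
      have : (ρ v).val ∈ Finset.Ico (b - i) b := by
        rw [mem_Ico]
        omega
      exact this
    · intro v _ v' _ h
      exact ρ.injective (Fin.ext h)
  rw [Nat.card_Ico] at h1
  omega

theorem alone {Y : Type} {N : ℕ} (H F : Finset (Pt Y N)) (hHF : H ⊆ F)
    (ρ : Equiv.Perm (Fin N)) (b i : ℕ) (hi : i ≤ b)
    (hag : ∀ x ∈ H, ∀ y ∈ H, Agr (A ρ b) x y) :
    (H.filter (fun x => ¬ Comp F (A ρ (b - i)) x)).card ≤ 2 ^ i := by
  have h1 : (H.filter (fun x => ¬ Comp F (A ρ (b - i)) x)).card ≤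
      (A ρ b \ A ρ (b - i)).powerset.card := by
    apply Finset.card_le_card_of_injOn
      (fun x => (A ρ b \ A ρ (b - i)).filter (fun v => x.2 v = true))
    · intro x _
      have : (A ρ b \ A ρ (b - i)).filter (fun v => x.2 v = true) ∈
          (A ρ b \ A ρ (b - i)).powerset := mem_powerset.2 (filter_subset _ _)
      exact this
    · intro x hx y hy hxy
      have hx' := mem_filter.1 (show x ∈ H.filter (fun x => ¬ Comp F (A ρ (b - i)) x) from hx)
      have hy' := mem_filter.1 (show y ∈ H.filter (fun x => ¬ Comp F (A ρ (b - i)) x) from hy)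
      by_contra hne
      apply hx'.2
      refine ⟨y, hHF hy'.1, fun h => hne h.symm, (hag x hx'.1 y hy'.1).1, ?_⟩
      intro v hv
      by_cases hvb : v ∈ A ρ b
      · have hvW : v ∈ A ρ b \ A ρ (b - i) := mem_sdiff.2 ⟨hvb, hv⟩
        have h2 := Finset.ext_iff.1 hxy v
        simp only [mem_filter, hvW, true_and] at h2
        cases hx2 : x.2 v <;> cases hy2 : y.2 v <;> rw [hx2, hy2] at h2 <;> simp_all
      · exact (hag x hx'.1 y hy'.1).2 v hvb
  rw [card_powerset] at h1
  exact h1.trans (Nat.pow_le_pow_right (by norm_num) (card_W ρ b i hi))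

theorem cls {Y : Type} {N : ℕ} (H F : Finset (Pt Y N)) (hHF : H ⊆ F)
    (ρ : Equiv.Perm (Fin N)) (b w : ℕ) (hw : w ≤ b) (hH : H.card ≤ 2 ^ w)
    (hag : ∀ x ∈ H, ∀ y ∈ H, Agr (A ρ b) x y) :
    H.card * H.card - H.card ≤
      8 * ∑ i ∈ range w, 2 ^ i * (H.filter (fun x => Comp F (A ρ (b - i)) x)).card := by
  by_cases hK : H.card ≤ 1
  · interval_cases h : H.card <;> simp
  · have hK2 : 2 ≤ H.card := by omega
    obtain ⟨i, hi1, hi2⟩ : ∃ i, 2 ^ (i + 1) ≤ H.card ∧ H.card < 2 ^ (i + 2) := by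
      have h1 : 1 ≤ Nat.log 2 H.card := Nat.log_pos (by norm_num) hK2
      refine ⟨Nat.log 2 H.card - 1, ?_, ?_⟩
      · rw [Nat.sub_add_cancel h1]
        exact Nat.pow_log_le_self 2 (by omega)
      · rw [show Nat.log 2 H.card - 1 + 2 = Nat.log 2 H.card + 1 by omega]
        exact Nat.lt_pow_succ_log_self (by norm_num) _
    have hiw : i < w := by
      have h1 : 2 ^ (i + 1) ≤ 2 ^ w := hi1.trans hH
      have := (Nat.pow_le_pow_iff_right (by norm_num : 1 < 2)).1 h1
      omega
    have h1 : 2 ^ i * (H.filter (fun x => Comp F (A ρ (b - i)) x)).card ≤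
        ∑ i ∈ range w, 2 ^ i * (H.filter (fun x => Comp F (A ρ (b - i)) x)).card :=
      Finset.single_le_sum (f := fun i => 2 ^ i *
        (H.filter (fun x => Comp F (A ρ (b - i)) x)).card) (fun _ _ => Nat.zero_le _)
        (mem_range.2 hiw)
    have h2 := alone H F hHF ρ b i (by omega) hag
    have h3 : (H.filter (fun x => Comp F (A ρ (b - i)) x)).card +
        (H.filter (fun x => ¬ Comp F (A ρ (b - i)) x)).card = H.card :=
      Finset.card_filter_add_card_filter_not _
    set C := (H.filter (fun x => Comp F (A ρ (b - i)) x)).card with hC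
    set K := H.card with hKdef
    have e1 : 2 ^ (i + 1) = 2 * 2 ^ i := by ring
    have e2 : 2 ^ (i + 2) = 4 * 2 ^ i := by ring
    rw [e1] at hi1
    rw [e2] at hi2
    have h4 : K ≤ 2 * C := by omega
    have h5 : K * K ≤ 8 * (2 ^ i * C) := by
      calc K * K ≤ (4 * 2 ^ i) * (2 * C) := Nat.mul_le_mul hi2.le h4
        _ = 8 * (2 ^ i * C) := by ring
    calc K * K - K ≤ K * K := Nat.sub_le _ _
      _ ≤ 8 * (2 ^ i * C) := h5
      _ ≤ _ := Nat.mul_le_mul_left 8 h1

/-- the class of a point -/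
def cl {Y : Type} {N : ℕ} (S : Finset (Fin N)) (x : Pt Y N) : Pt Y N :=
  (x.1, fun v => if v ∈ S then false else x.2 v)

theorem agr_iff {Y : Type} {N : ℕ} (S : Finset (Fin N)) (x y : Pt Y N) :
    Agr S x y ↔ cl S x = cl S y := by
  unfold Agr cl
  rw [Prod.mk.injEq]
  apply and_congr_right
  intro _
  rw [funext_iff]
  constructor
  · intro h v
    by_cases hv : v ∈ S
    · simp [hv]
    · simp [hv, h v hv]
  · intro h v hv
    have := h v
    simpa [hv] using this

end Window

theorem window {Y : Type} {N : ℕ} (G F : Finset (Pt Y N)) (hGF : G ⊆ F)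
    (ρ : Equiv.Perm (Fin N)) (b w : ℕ) (hw : w ≤ b) (hG : G.card ≤ 2 ^ w) :
    (G.offDiag.filter (fun p => Agr (A ρ b) p.1 p.2)).card ≤
      8 * ∑ i ∈ range w, 2 ^ i * (G.filter (fun x => Comp F (A ρ (b - i)) x)).card := by
  set c : Pt Y N → Pt Y N := Window.cl (A ρ b) with hc
  have hmap : ∀ P : Pt Y N → Prop, (G.filter P).card =
      ∑ t ∈ G.image c, ((G.filter (fun x => c x = t)).filter P).card := by
    intro P
    rw [Finset.card_eq_sum_card_fiberwise (f := c) (t := G.image c)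
      (s := G.filter P) (fun x hx => mem_image_of_mem c (mem_filter.1 hx).1)]
    apply Finset.sum_congr rfl
    intro t _
    congr 1
    ext x
    simp only [mem_filter]
    tauto
  have hL : (G.offDiag.filter (fun p => Agr (A ρ b) p.1 p.2)).card =
      ∑ t ∈ G.image c, ((G.filter (fun x => c x = t)).card * (G.filter (fun x => c x = t)).card -
        (G.filter (fun x => c x = t)).card) := by
    rw [Finset.card_eq_sum_card_fiberwise (f := fun p : Pt Y N × Pt Y N => c p.1) (t := G.image c)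
      (s := G.offDiag.filter (fun p => Agr (A ρ b) p.1 p.2))
      (fun p hp => mem_image_of_mem c (mem_offDiag.1 (mem_filter.1 hp).1).1)]
    apply Finset.sum_congr rfl
    intro t _
    rw [← offDiag_card]
    congr 1
    ext p
    simp only [mem_filter, mem_offDiag, Window.agr_iff]
    constructor
    · rintro ⟨⟨⟨h1, h2, h3⟩, h4⟩, h5⟩
      exact ⟨⟨h1, h5⟩, ⟨h2, by rw [← h5]; exact h4.symm⟩, h3⟩
    · rintro ⟨⟨h1, h5⟩, ⟨h2, h6⟩, h3⟩
      exact ⟨⟨⟨h1, h2, h3⟩, h5.trans h6.symm⟩, h5⟩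
  rw [hL]
  have hR : 8 * ∑ i ∈ range w, 2 ^ i * (G.filter (fun x => Comp F (A ρ (b - i)) x)).card =
      ∑ t ∈ G.image c, 8 * ∑ i ∈ range w, 2 ^ i *
        ((G.filter (fun x => c x = t)).filter (fun x => Comp F (A ρ (b - i)) x)).card := by
    rw [← Finset.mul_sum, Finset.sum_comm]
    congr 1
    apply Finset.sum_congr rfl
    intro i _
    rw [← Finset.mul_sum, ← hmap]
  rw [hR]
  apply Finset.sum_le_sum
  intro t _
  apply Window.cls _ F ((filter_subset _ _).trans hGF) ρ b w hw
    ((card_le_card (filter_subset _ _)).trans hG)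
  intro x hx y hy
  rw [Window.agr_iff]
  exact (mem_filter.1 hx).2.trans (mem_filter.1 hy).2.symm

end Pool.Agent.TH271.FF
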