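import Pool.Agent.TH271.FF.Kraft
import Pool.Agent.TH271.FF.Window
import Pool.Agent.TH271.FF.Grouping
import Pool.Agent.TH271.FF.PJ
import Pool.Agent.TH271.FF.Swap

set_option autoImplicit false

namespace Pool.Agent.TH271.FF.CoreProof

open Finset
open scoped Classical

/-- the cell of a point -/
noncomputable def cell {Y : Type} {N : ℕ} (S : Finset (Fin N)) (x : Pt Y N) : Pt Y N :=
  (x.1, fun v => if v ∈ S then false else x.2 v)

theorem cell_eq_iff {Y : Type} {N : ℕ} (S : Finset (Fin N)) (x y : Pt Y N) :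
    cell S x = cell S y ↔ Agr S x y := by
  unfold cell Agr
  rw [Prod.mk.injEq]
  refine and_congr_right (fun _ => ?_)
  constructor
  · intro h v hv
    have := congrFun h v
    simpa [hv] using this
  · intro h
    funext v
    by_cases hv : v ∈ S
    · simp [hv]
    · simp [hv, h v hv]

theorem card_image_cell {Y : Type} [Fintype Y] {N : ℕ} (inst : DecidableEq (Pt Y N))
    (F : Finset (Pt Y N)) (S : Finset (Fin N)) :
    (@Finset.image _ _ inst (cell S) F).card ≤ Fintype.card Y * 2 ^ (N - S.card) := by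
  have h1 : @Finset.image _ _ inst (cell S) F ⊆
      (univ : Finset Y) ×ˢ Fintype.piFinset
        (fun v : Fin N => if v ∈ S then ({false} : Finset Bool) else univ) := by
    intro z hz
    rw [mem_image] at hz
    obtain ⟨x, -, rfl⟩ := hz
    rw [mem_product]
    refine ⟨mem_univ _, ?_⟩
    rw [Fintype.mem_piFinset]
    intro v
    by_cases hv : v ∈ S <;> simp [cell, hv]
  refine (card_le_card h1).trans ?_
  rw [card_product, Fintype.card_piFinset, card_univ]
  refine Nat.mul_le_mul_left _ (le_of_eq ?_)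
  have h2 : ∀ v : Fin N, (if v ∈ S then ({false} : Finset Bool) else univ).card =
      if v ∈ S then 1 else 2 := by
    intro v
    by_cases hv : v ∈ S <;> simp [hv]
  rw [prod_congr rfl (fun v _ => h2 v), prod_ite]
  simp only [prod_const_one, one_mul, prod_const]
  congr 1
  rw [filter_not, card_sdiff_of_subset (filter_subset _ _)]
  simp

theorem compl_A {N : ℕ} (ρ : Equiv.Perm (Fin N)) {m : ℕ} (hm : m ≤ N) :
    (A ρ m)ᶜ = A (Fin.revPerm * ρ) (N - m) := by
  ext v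
  rw [mem_compl, mem_A, mem_A]
  have h1 : (((Fin.revPerm : Equiv.Perm (Fin N)) * ρ) v).val = N - ((ρ v).val + 1) := by
    simp [Equiv.Perm.mul_apply, Fin.val_rev]
  rw [h1]
  have := (ρ v).isLt
  omega

/-- number of points with company at level `m` -/
noncomputable def cC {Y : Type} {N : ℕ} (F : Finset (Pt Y N)) (ρ : Equiv.Perm (Fin N)) (m : ℕ) :
    ℕ := (F.filter (fun x => Comp F (A ρ m) x)).card

/-- number of points alone at level `m` -/
noncomputable def cO {Y : Type} {N : ℕ} (F : Finset (Pt Y N)) (ρ : Equiv.Perm (Fin N)) (m : ℕ) :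
    ℕ := (F.filter (fun x => ¬ Comp F (A ρ m) x)).card

theorem level_upper_bound {Y : Type} [Fintype Y] (h : ℕ) (F : Finset (Pt Y (2 * h)))
    (hF : ∀ x ∈ F, ∀ S : Finset (Fin (2 * h)), ¬ (Comp F S x ∧ Comp F Sᶜ x)) (K : ℕ)
    (hK : K ≤ h) :
    ∑ ρ : Equiv.Perm (Fin (2 * h)), ∑ j ∈ range K, 2 ^ j * cC F ρ (h - j) ≤
      Fintype.card (Equiv.Perm (Fin (2 * h))) * (2 * (Fintype.card Y * 2 ^ h)) := by
  have h1 : ∀ ρ : Equiv.Perm (Fin (2 * h)), ∀ j ∈ range K,
      2 ^ h * (2 ^ j * cC F ρ (h - j)) ≤ 2 ^ (h + j) * cO F (Fin.revPerm * ρ) (h + j) := by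
    intro ρ j hj
    rw [mem_range] at hj
    rw [← mul_assoc, ← pow_add]
    refine Nat.mul_le_mul_left _ ?_
    unfold cC cO
    refine card_le_card ?_
    intro x hx
    rw [mem_filter] at hx ⊢
    refine ⟨hx.1, fun hc => hF x hx.1 (A ρ (h - j)) ⟨hx.2, ?_⟩⟩
    rw [compl_A ρ (by omega)]
    have : 2 * h - (h - j) = h + j := by omega
    rw [this]
    exact hc
  have h2 : ∀ ρ : Equiv.Perm (Fin (2 * h)),
      ∑ j ∈ range K, 2 ^ (h + j) * cO F ρ (h + j) ≤ 2 * (Fintype.card Y * 2 ^ (2 * h)) := by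
    intro ρ
    refine le_trans ?_ (kraft F ρ)
    have h3 : ∑ j ∈ range K, 2 ^ (h + j) * cO F ρ (h + j) =
        ∑ m ∈ (range K).image (fun j => h + j), 2 ^ m * cO F ρ m := by
      rw [sum_image]
      intro a _ b _ hab
      simpa using hab
    rw [h3]
    refine sum_le_sum_of_subset ?_
    intro m hm
    rw [mem_image] at hm
    obtain ⟨j, hj, rfl⟩ := hm
    rw [mem_range] at hj ⊢
    omega
  have h4 : 2 ^ h * ∑ ρ : Equiv.Perm (Fin (2 * h)), ∑ j ∈ range K, 2 ^ j * cC F ρ (h - j) ≤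
      2 ^ h * (Fintype.card (Equiv.Perm (Fin (2 * h))) * (2 * (Fintype.card Y * 2 ^ h))) := by
    calc 2 ^ h * ∑ ρ : Equiv.Perm (Fin (2 * h)), ∑ j ∈ range K, 2 ^ j * cC F ρ (h - j)
        = ∑ ρ : Equiv.Perm (Fin (2 * h)), ∑ j ∈ range K, 2 ^ h * (2 ^ j * cC F ρ (h - j)) := by
          rw [mul_sum]
          refine sum_congr rfl (fun ρ _ => ?_)
          rw [mul_sum]
      _ ≤ ∑ ρ : Equiv.Perm (Fin (2 * h)), ∑ j ∈ range K,
            2 ^ (h + j) * cO F (Fin.revPerm * ρ) (h + j) :=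
          sum_le_sum (fun ρ _ => sum_le_sum (fun j hj => h1 ρ j hj))
      _ = ∑ ρ : Equiv.Perm (Fin (2 * h)), ∑ j ∈ range K, 2 ^ (h + j) * cO F ρ (h + j) :=
          Equiv.sum_comp (Equiv.mulLeft (Fin.revPerm : Equiv.Perm (Fin (2 * h))))
            (fun ρ => ∑ j ∈ range K, 2 ^ (h + j) * cO F ρ (h + j))
      _ ≤ ∑ ρ : Equiv.Perm (Fin (2 * h)), 2 * (Fintype.card Y * 2 ^ (2 * h)) :=
          sum_le_sum (fun ρ _ => h2 ρ)
      _ = 2 ^ h * (Fintype.card (Equiv.Perm (Fin (2 * h))) *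
            (2 * (Fintype.card Y * 2 ^ h))) := by
          rw [sum_const, card_univ, smul_eq_mul]
          ring
  exact Nat.le_of_mul_le_mul_left h4 (by positivity)

/-- lower bound for one window -/
theorem window_lower_bound {Y : Type} [Fintype Y] (h f w k : ℕ) (F : Finset (Pt Y (2 * h)))
    (hF : Fintype.card Y * 2 ^ h < 2 ^ f * F.card) (hw : 1 ≤ w)
    (h1 : 8 * (w + f + 1 + k) ^ 2 + k + w + f + 1 ≤ h)
    (h2 : 4 * (w + f + 1 + k) + 1 ≤ 2 ^ w) :
    (Fintype.card (Equiv.Perm (Fin (2 * h))) : ℝ) * F.card ≤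
      2 ^ (f + 7) * ∑ ρ : Equiv.Perm (Fin (2 * h)),
        ∑ i ∈ range w, (2 : ℝ) ^ (k + i) * cC F ρ (h - (k + i)) := by
  have hM1 : 1 ≤ 2 ^ w := Nat.one_le_two_pow
  have hgr := fun S : Finset (Fin (2 * h)) =>
    grouping F (cell S) (Fintype.card Y * 2 ^ (2 * h - S.card)) (2 ^ w) hM1
      (card_image_cell _ F S)
  choose G hG1 hG2 hG3 using hgr
  set a : ℕ := h + (w + f + 1) with ha
  set b : ℕ := h - k with hb
  set l : ℕ := w + f + 1 + k with hl
  have hkh : k + w + f + 1 ≤ h := by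
    have : 0 ≤ 8 * l ^ 2 := Nat.zero_le _
    omega
  have hab : a = b + l := by omega
  have haN : a ≤ 2 * h := by omega
  have hl2 : 8 * l ^ 2 ≤ b := by omega
  -- the pairs
  let P : Finset (Fin (2 * h)) → Finset (Pt Y (2 * h) × Pt Y (2 * h)) :=
    fun S => (G S).biUnion (fun g => g.offDiag)
  have hagr : ∀ S, ∀ g ∈ G S, ∀ x ∈ g, ∀ y ∈ g, Agr S x y := by
    intro S g hg x hx y hy
    exact (cell_eq_iff S x y).1 ((hG1 S g hg).2.2 x hx y hy)
  have hP : ∀ S, ∀ p ∈ P S, Agr S p.1 p.2 := by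
    intro S p hp
    rw [mem_biUnion] at hp
    obtain ⟨g, hg, hp⟩ := hp
    rw [mem_offDiag] at hp
    exact hagr S g hg _ hp.1 _ hp.2.1
  have key := swap_avg P a b (by omega) haN hP
  -- upper bound of the left side
  have hleft : ∀ ρ : Equiv.Perm (Fin (2 * h)),
      (((P (A ρ a)).filter (fun p => Agr (A ρ b) p.1 p.2)).card : ℝ) ≤
        8 * ∑ i ∈ range w, (2 : ℝ) ^ i * cC F ρ (b - i) := by
    intro ρ
    have e1 : ((P (A ρ a)).filter (fun p => Agr (A ρ b) p.1 p.2)).card ≤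
        ∑ g ∈ G (A ρ a), (g.offDiag.filter (fun p => Agr (A ρ b) p.1 p.2)).card := by
      show (((G (A ρ a)).biUnion (fun g => g.offDiag)).filter _).card ≤ _
      rw [filter_biUnion]
      exact card_biUnion_le
    have e2 : ∀ g ∈ G (A ρ a), (g.offDiag.filter (fun p => Agr (A ρ b) p.1 p.2)).card ≤
        8 * ∑ i ∈ range w, 2 ^ i * (g.filter (fun x => Comp F (A ρ (b - i)) x)).card := by
      intro g hg
      exact window g F (hG1 _ g hg).1 ρ b w (by
        have : w ≤ 2 ^ w := Nat.lt_two_pow_self.le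
        omega) (le_of_eq (hG1 _ g hg).2.1)
    have e3 : ∀ i, ∑ g ∈ G (A ρ a), (g.filter (fun x => Comp F (A ρ (b - i)) x)).card ≤
        cC F ρ (b - i) := by
      intro i
      rw [← card_biUnion]
      · unfold cC
        refine card_le_card ?_
        intro x hx
        rw [mem_biUnion] at hx
        obtain ⟨g, hg, hx⟩ := hx
        rw [mem_filter] at hx ⊢
        exact ⟨(hG1 _ g hg).1 hx.1, hx.2⟩
      · intro g hg g' hg' hne
        have := hG2 (A ρ a) hg hg' hne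
        simp only [Function.onFun, id] at this
        exact disjoint_of_subset_left (filter_subset _ _)
          (disjoint_of_subset_right (filter_subset _ _) this)
    have e4 : ((P (A ρ a)).filter (fun p => Agr (A ρ b) p.1 p.2)).card ≤
        8 * ∑ i ∈ range w, 2 ^ i * cC F ρ (b - i) := by
      refine e1.trans ((sum_le_sum e2).trans ?_)
      rw [← mul_sum, sum_comm]
      refine Nat.mul_le_mul_left _ (sum_le_sum (fun i _ => ?_))
      rw [← mul_sum]
      exact Nat.mul_le_mul_left _ (e3 i)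
    exact_mod_cast e4
  -- lower bound of the right side
  have hright : ∀ ρ : Equiv.Perm (Fin (2 * h)),
      (F.card : ℝ) / 2 ^ (f + 4 + k) ≤
        ∑ p ∈ P (A ρ a), ∏ i ∈ Ioc b a, (((i : ℝ) - dst p.1 p.2) / i) := by
    intro ρ
    have e1 : ∑ p ∈ P (A ρ a), ∏ i ∈ Ioc b a, (((i : ℝ) - dst p.1 p.2) / i) =
        ∑ g ∈ G (A ρ a), ∑ p ∈ g.offDiag, ∏ i ∈ Ioc b a, (((i : ℝ) - dst p.1 p.2) / i) := by
      show ∑ p ∈ (G (A ρ a)).biUnion (fun g => g.offDiag), _ = _
      rw [sum_biUnion]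
      intro g hg g' hg' hne
      have h3 := hG2 (A ρ a) hg hg' hne
      simp only [Function.onFun, id] at h3 ⊢
      rw [disjoint_left] at h3 ⊢
      intro p hp hp'
      rw [mem_offDiag] at hp hp'
      exact h3 hp.1 hp'.1
    have hcardA : (A ρ a).card = a := card_A ρ haN
    have e2 : ∀ g ∈ G (A ρ a), ((2 ^ w : ℕ) : ℝ) * (((2 ^ w : ℕ) : ℝ) - 1) / 2 ^ (l + 1) ≤
        ∑ p ∈ g.offDiag, ∏ i ∈ Ioc b a, (((i : ℝ) - dst p.1 p.2) / i) := by
      intro g hg
      exact plotkin_jensen g (A ρ a) a b l (2 ^ w) hcardA hab (by omega) hl2 h2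
        (hG1 _ g hg).2.1 (hagr _ g hg)
    rw [e1]
    refine le_trans ?_ (sum_le_sum e2)
    rw [sum_const, nsmul_eq_mul]
    have e3 := hG3 (A ρ a)
    rw [hcardA] at e3
    have e4 : 2 ^ (f + 1) * (2 ^ w * (Fintype.card Y * 2 ^ (2 * h - a))) =
        Fintype.card Y * 2 ^ h := by
      have : 2 ^ h = 2 ^ (f + 1) * 2 ^ w * 2 ^ (2 * h - a) := by
        rw [← pow_add, ← pow_add]
        congr 1
        omega
      rw [this]
      ring
    have e5 : F.card ≤ 2 * (2 ^ w * (G (A ρ a)).card) := by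
      have : 2 ^ f * (2 * (2 ^ w * (Fintype.card Y * 2 ^ (2 * h - a)))) < 2 ^ f * F.card := by
        calc 2 ^ f * (2 * (2 ^ w * (Fintype.card Y * 2 ^ (2 * h - a))))
            = Fintype.card Y * 2 ^ h := by rw [← e4]; ring
          _ < _ := hF
      have := Nat.lt_of_mul_lt_mul_left this
      omega
    have e6 : (F.card : ℝ) ≤ 2 * (2 ^ w * (G (A ρ a)).card) := by exact_mod_cast e5
    have e7 : (2 : ℝ) ^ w ≤ 2 * (2 ^ w - 1) := by
      have : (2 : ℝ) ≤ 2 ^ w := by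
        calc (2 : ℝ) = 2 ^ 1 := by norm_num
          _ ≤ 2 ^ w := pow_le_pow_right₀ (by norm_num) hw
      linarith
    push_cast
    rw [div_le_iff₀ (by positivity)]
    have e8 : ((G (A ρ a)).card : ℝ) * (2 ^ w * (2 ^ w - 1) / 2 ^ (l + 1)) * 2 ^ (f + 4 + k) =
        (2 * (2 ^ w * (G (A ρ a)).card)) * ((2 * (2 ^ w - 1)) / 2 ^ w) := by
      have h5 : (2 : ℝ) ^ (l + 1) * 4 = 2 ^ (f + 4 + k) * 2 ^ w := by
        rw [show (4 : ℝ) = 2 ^ 2 by norm_num, ← pow_add, ← pow_add]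
        congr 1
        omega
      have h6 : (2 : ℝ) ^ w ≠ 0 := by positivity
      have h7 : (2 : ℝ) ^ (l + 1) ≠ 0 := by positivity
      field_simp
      linear_combination ((G (A ρ a)).card : ℝ) * (2 ^ w - 1) * (-h5)
    rw [e8]
    have e9 : (1 : ℝ) ≤ (2 * (2 ^ w - 1)) / 2 ^ w := by
      rw [le_div_iff₀ (by positivity)]
      linarith
    have e10 : (0 : ℝ) ≤ 2 * (2 ^ w * (G (A ρ a)).card) := by positivity
    nlinarith
  -- combine
  have hsum : ∑ _ρ : Equiv.Perm (Fin (2 * h)), (F.card : ℝ) / 2 ^ (f + 4 + k) ≤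
      ∑ ρ : Equiv.Perm (Fin (2 * h)), 8 * ∑ i ∈ range w, (2 : ℝ) ^ i * cC F ρ (b - i) := by
    refine (sum_le_sum (fun ρ _ => hright ρ)).trans ?_
    rw [← key]
    exact sum_le_sum (fun ρ _ => hleft ρ)
  rw [sum_const, card_univ, nsmul_eq_mul] at hsum
  have hrew : ∑ ρ : Equiv.Perm (Fin (2 * h)),
      ∑ i ∈ range w, (2 : ℝ) ^ (k + i) * cC F ρ (h - (k + i)) =
      2 ^ k * ∑ ρ : Equiv.Perm (Fin (2 * h)), ∑ i ∈ range w, (2 : ℝ) ^ i * cC F ρ (b - i) := by
    rw [mul_sum]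
    refine sum_congr rfl (fun ρ _ => ?_)
    rw [mul_sum]
    refine sum_congr rfl (fun i _ => ?_)
    rw [hb, show h - (k + i) = h - k - i by omega, pow_add]
    ring
  rw [hrew]
  rw [← mul_sum] at hsum
  rw [mul_div_assoc', div_le_iff₀ (by positivity)] at hsum
  calc (Fintype.card (Equiv.Perm (Fin (2 * h))) : ℝ) * F.card
      ≤ 8 * (∑ ρ : Equiv.Perm (Fin (2 * h)), ∑ i ∈ range w, (2 : ℝ) ^ i * cC F ρ (b - i)) *
          2 ^ (f + 4 + k) := hsum
    _ = _ := by
        rw [show f + 7 = f + 4 + 3 by ring, pow_add _ (f + 4) 3, pow_add _ (f + 4) k]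
        ring

theorem sum_windows (g : ℕ → ℝ) (W w : ℕ) :
    ∑ t ∈ range W, ∑ i ∈ range w, g (t * w + i) = ∑ j ∈ range (W * w), g j := by
  induction W with
  | zero => simp
  | succ W ih =>
    rw [sum_range_succ, ih, Nat.succ_mul, sum_range_add]

/-- The core statement with an explicit threshold. -/
theorem core_quant (f h : ℕ) (hh : 2 ^ (8 * f + 46) ≤ h) (Y : Type) [Fintype Y]
    (F : Finset (Pt Y (2 * h)))
    (hF : ∀ x ∈ F, ∀ S : Finset (Fin (2 * h)), ¬ (Comp F S x ∧ Comp F Sᶜ x)) :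
    2 ^ f * F.card ≤ Fintype.card Y * 2 ^ h := by
  obtain ⟨W, hW⟩ : ∃ W : ℕ, W = 2 ^ (2 * f + 8) := ⟨_, rfl⟩
  obtain ⟨C, hC⟩ : ∃ C : ℕ, C = 4 * (f + 2 + W) + 1 := ⟨_, rfl⟩
  obtain ⟨w, hw⟩ : ∃ w : ℕ, w = 4 * C := ⟨_, rfl⟩
  obtain ⟨L, hL⟩ : ∃ L : ℕ, L = w + f + 1 + W * w := ⟨_, rfl⟩
  have hthr : 8 * L ^ 2 + L ≤ h := by
    refine le_trans ?_ hh
    have g1 : f + 2 ≤ W := by
      have g2 : f + 2 < 2 ^ (f + 2) := Nat.lt_two_pow_self
      have g3 : 2 ^ (f + 2) ≤ 2 ^ (2 * f + 8) := Nat.pow_le_pow_right (by norm_num) (by omega)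
      omega
    have g256 : 256 ≤ W := by
      rw [hW]
      calc 256 = 2 ^ 8 := by norm_num
        _ ≤ 2 ^ (2 * f + 8) := Nat.pow_le_pow_right (by norm_num) (by omega)
    have g4 : C ≤ 9 * W := by omega
    have g5 : w ≤ 36 * W := by omega
    have g6 : L ≤ 37 * W ^ 2 := by
      have g7 : W * w ≤ W * (36 * W) := Nat.mul_le_mul_left _ g5
      have g8 : 256 * W ≤ W * W := Nat.mul_le_mul_right _ g256
      have g9 : 37 * W ^ 2 = W * (36 * W) + W * W := by ring
      omega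
    have g10 : 8 * L ^ 2 + L ≤ 9 * L ^ 2 := by
      have : L ≤ L ^ 2 := Nat.le_self_pow (by norm_num) L
      omega
    calc 8 * L ^ 2 + L ≤ 9 * L ^ 2 := g10
      _ ≤ 9 * (37 * W ^ 2) ^ 2 := Nat.mul_le_mul_left _ (Nat.pow_le_pow_left g6 2)
      _ = 12321 * W ^ 4 := by ring
      _ ≤ 2 ^ 14 * W ^ 4 := Nat.mul_le_mul_right _ (by norm_num)
      _ = 2 ^ (8 * f + 46) := by
          rw [hW, ← pow_mul, ← pow_add]
          congr 1
          ring
  by_contra hcon
  have hcon' : Fintype.card Y * 2 ^ h < 2 ^ f * F.card := not_le.1 hcon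
  have hw1 : 1 ≤ w := by omega
  have hpow : 4 * L + 1 ≤ 2 ^ w := by
    have e1 : 4 * L + 1 ≤ C * w := by
      have : 4 * (f + 1) + 1 ≤ (4 * (f + 1) + 1) * w := Nat.le_mul_of_pos_right _ hw1
      have e2 : C * w = 4 * w + (4 * (f + 1) + 1) * w + 4 * (W * w) := by
        rw [hC]; ring
      omega
    have e3 : C * w ≤ 2 ^ w := by
      have h3 : 2 * C ≤ 2 ^ (2 * C) := Nat.lt_two_pow_self.le
      calc C * w = (2 * C) * (2 * C) := by rw [hw]; ring
        _ ≤ 2 ^ (2 * C) * 2 ^ (2 * C) := Nat.mul_le_mul h3 h3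
        _ = 2 ^ w := by rw [← pow_add]; congr 1; omega
    omega
  have hKh : W * w ≤ h := by omega
  have hlow : ∀ t ∈ range W, (Fintype.card (Equiv.Perm (Fin (2 * h))) : ℝ) * F.card ≤
      2 ^ (f + 7) * ∑ ρ : Equiv.Perm (Fin (2 * h)),
        ∑ i ∈ range w, (2 : ℝ) ^ (t * w + i) * cC F ρ (h - (t * w + i)) := by
    intro t ht
    rw [mem_range] at ht
    have hk : t * w + w ≤ W * w := by
      calc t * w + w = (t + 1) * w := by ring
        _ ≤ W * w := Nat.mul_le_mul_right _ ht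
    have hk2 : w + f + 1 + t * w + w ≤ L := by omega
    refine window_lower_bound h f w (t * w) F hcon' hw1 ?_ ?_
    · have : (w + f + 1 + t * w) ^ 2 ≤ L ^ 2 := Nat.pow_le_pow_left (by omega) 2
      omega
    · omega
  have hsum := sum_le_sum hlow
  rw [sum_const, card_range, nsmul_eq_mul, ← mul_sum, sum_comm] at hsum
  have hre : ∀ ρ : Equiv.Perm (Fin (2 * h)),
      ∑ t ∈ range W, ∑ i ∈ range w, (2 : ℝ) ^ (t * w + i) * cC F ρ (h - (t * w + i)) =
        ∑ j ∈ range (W * w), (2 : ℝ) ^ j * cC F ρ (h - j) := by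
    intro ρ
    exact sum_windows (fun j => (2 : ℝ) ^ j * cC F ρ (h - j)) W w
  rw [sum_congr rfl (fun ρ _ => hre ρ)] at hsum
  have hup := level_upper_bound h F hF (W * w) hKh
  have hup' : ∑ ρ : Equiv.Perm (Fin (2 * h)), ∑ j ∈ range (W * w),
      (2 : ℝ) ^ j * cC F ρ (h - j) ≤
      Fintype.card (Equiv.Perm (Fin (2 * h))) * (2 * (Fintype.card Y * 2 ^ h)) := by
    exact_mod_cast hup
  have hP : (0 : ℝ) < Fintype.card (Equiv.Perm (Fin (2 * h))) := by
    exact_mod_cast Fintype.card_pos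
  have hall : (W : ℝ) * (Fintype.card (Equiv.Perm (Fin (2 * h))) * F.card) ≤
      2 ^ (f + 7) * (Fintype.card (Equiv.Perm (Fin (2 * h))) * (2 * (Fintype.card Y * 2 ^ h))) :=
    hsum.trans (mul_le_mul_of_nonneg_left hup' (by positivity))
  have hall2 : (W : ℝ) * F.card ≤ 2 ^ (f + 8) * (Fintype.card Y * 2 ^ h) := by
    have e : (Fintype.card (Equiv.Perm (Fin (2 * h))) : ℝ) * ((W : ℝ) * F.card) ≤
        (Fintype.card (Equiv.Perm (Fin (2 * h))) : ℝ) *
          (2 ^ (f + 8) * (Fintype.card Y * 2 ^ h)) := by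
      calc (Fintype.card (Equiv.Perm (Fin (2 * h))) : ℝ) * ((W : ℝ) * F.card)
          = (W : ℝ) * (Fintype.card (Equiv.Perm (Fin (2 * h))) * F.card) := by ring
        _ ≤ _ := hall
        _ = _ := by rw [pow_succ _ (f + 7)]; ring
    exact le_of_mul_le_mul_left e hP
  have hcon2 : (Fintype.card Y : ℝ) * 2 ^ h < 2 ^ f * F.card := by exact_mod_cast hcon'
  have hWr : (W : ℝ) = 2 ^ (f + 8) * 2 ^ f := by
    rw [hW]
    push_cast
    rw [← pow_add]
    congr 1
    omega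
  rw [hWr] at hall2
  have : (2 : ℝ) ^ (f + 8) * (Fintype.card Y * 2 ^ h) < 2 ^ (f + 8) * (2 ^ f * F.card) :=
    mul_lt_mul_of_pos_left hcon2 (by positivity)
  nlinarith

theorem core : Core := fun f =>
  ⟨2 ^ (8 * f + 46), fun h hh Y _ F hF => core_quant f h hh Y F hF⟩

end Pool.Agent.TH271.FF.CoreProof
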