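import Mathlib

set_option autoImplicit false

namespace Pool.Agent.TH271.FF

open Finset

/-- Points: a label in `Y` and a 0-1 vector of length `N`. -/
abbrev Pt (Y : Type) (N : ℕ) := Y × (Fin N → Bool)

/-- `x` and `y` have the same label and agree outside `S`. -/
def Agr {Y : Type} {N : ℕ} (S : Finset (Fin N)) (x y : Pt Y N) : Prop :=
  x.1 = y.1 ∧ ∀ v, v ∉ S → x.2 v = y.2 v

/-- `x` has company in `S`: another point of `F` agrees with `x` outside `S`. -/
def Comp {Y : Type} {N : ℕ} (F : Finset (Pt Y N)) (S : Finset (Fin N)) (x : Pt Y N) : Prop :=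
  ∃ y ∈ F, y ≠ x ∧ Agr S x y

/-- The first `m` coordinates in the order given by `ρ`. -/
def A {N : ℕ} (ρ : Equiv.Perm (Fin N)) (m : ℕ) : Finset (Fin N) :=
  univ.filter (fun v => (ρ v).val < m)

/-- Hamming distance of the vectors of two points. -/
def dst {Y : Type} {N : ℕ} (x y : Pt Y N) : ℕ :=
  (univ.filter (fun v => x.2 v ≠ y.2 v)).card

theorem mem_A {N : ℕ} {ρ : Equiv.Perm (Fin N)} {m : ℕ} {v : Fin N} :
    v ∈ A ρ m ↔ (ρ v).val < m := by simp [A]

theorem A_mono {N : ℕ} (ρ : Equiv.Perm (Fin N)) {m m' : ℕ} (h : m ≤ m') : A ρ m ⊆ A ρ m' := by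
  intro v hv
  rw [mem_A] at hv ⊢
  omega

theorem card_A {N : ℕ} (ρ : Equiv.Perm (Fin N)) {m : ℕ} (h : m ≤ N) : (A ρ m).card = m := by
  have h1 : A ρ m = (univ.filter (fun i : Fin N => i.val < m)).map ρ.symm.toEmbedding := by
    ext v
    simp only [mem_A, mem_map, mem_filter, mem_univ, true_and, Equiv.coe_toEmbedding]
    constructor
    · intro hv
      exact ⟨ρ v, hv, by simp⟩
    · rintro ⟨i, hi, rfl⟩
      simpa using hi
  rw [h1, card_map]
  rw [Fin.card_filter_val_lt]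
  omega

theorem Agr.mono {Y : Type} {N : ℕ} {S T : Finset (Fin N)} (h : S ⊆ T) {x y : Pt Y N}
    (hxy : Agr S x y) : Agr T x y :=
  ⟨hxy.1, fun v hv => hxy.2 v (fun h' => hv (h h'))⟩

theorem Agr.symm {Y : Type} {N : ℕ} {S : Finset (Fin N)} {x y : Pt Y N}
    (hxy : Agr S x y) : Agr S y x :=
  ⟨hxy.1.symm, fun v hv => (hxy.2 v hv).symm⟩

theorem Agr.refl {Y : Type} {N : ℕ} (S : Finset (Fin N)) (x : Pt Y N) : Agr S x x :=
  ⟨rfl, fun _ _ => rfl⟩

theorem Agr.trans {Y : Type} {N : ℕ} {S : Finset (Fin N)} {x y z : Pt Y N}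
    (h1 : Agr S x y) (h2 : Agr S y z) : Agr S x z :=
  ⟨h1.1.trans h2.1, fun v hv => (h1.2 v hv).trans (h2.2 v hv)⟩

theorem Comp.mono {Y : Type} {N : ℕ} {F : Finset (Pt Y N)} {S T : Finset (Fin N)} (h : S ⊆ T)
    {x : Pt Y N} (hx : Comp F S x) : Comp F T x := by
  obtain ⟨y, hy, hne, ha⟩ := hx
  exact ⟨y, hy, hne, ha.mono h⟩

theorem Comp.mono_left {Y : Type} {N : ℕ} {F G : Finset (Pt Y N)} {S : Finset (Fin N)} (h : G ⊆ F)
    {x : Pt Y N} (hx : Comp G S x) : Comp F S x := by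
  obtain ⟨y, hy, hne, ha⟩ := hx
  exact ⟨y, h hy, hne, ha⟩

/-- The core statement: if no point of `F` has company both in `S` and in the complement of `S`,
then `F` is small compared with `|Y| 2^h`, where the cube has dimension `2 h`. -/
def Core : Prop :=
  ∀ f : ℕ, ∃ h₀ : ℕ, ∀ h ≥ h₀, ∀ (Y : Type) [Fintype Y] (F : Finset (Pt Y (2 * h))),
    (∀ x ∈ F, ∀ S : Finset (Fin (2 * h)), ¬ (Comp F S x ∧ Comp F Sᶜ x)) →
    2 ^ f * F.card ≤ Fintype.card Y * 2 ^ h

/-- A focal family: focus `x₀` and further members `y j`, `j : Fin s`, all distinct, such that in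
every coordinate at most one of the `y j` differs from `x₀`. -/
def Focal {n : ℕ} (s : ℕ) (x₀ : Fin n → Bool) (y : Fin s → Fin n → Bool) : Prop :=
  Function.Injective y ∧ (∀ j, y j ≠ x₀) ∧
    ∀ i, (univ.filter (fun j => y j i ≠ x₀ i)).card ≤ 1

end Pool.Agent.TH271.FF
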