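import Pool.Agent.TH271.FF.Defs

/-!
# FF-1 (job 2873): Kraft inequality summed over levels
-/

set_option autoImplicit false

namespace Pool.Agent.TH271.FF

open Finset
open scoped Classical

namespace Kraft

theorem card_cell {Y : Type} [Fintype Y] {N : ℕ} (S : Finset (Fin N)) (x : Pt Y N) :
    2 ^ S.card ≤ (univ.filter (fun w : Pt Y N => Agr S x w)).card := by
  rw [← card_powerset]
  refine card_le_card_of_injOn
    (fun T => ((x.1, fun v => if v ∈ S then decide (v ∈ T) else x.2 v) : Pt Y N)) ?_ ?_
  · intro T _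
    simp only [coe_filter, mem_univ, true_and]
    refine ⟨rfl, fun v hv => ?_⟩
    simp [hv]
  · intro T hT T' hT' h
    have hT1 : T ⊆ S := by simpa using hT
    have hT2 : T' ⊆ S := by simpa using hT'
    ext v
    by_cases hv : v ∈ S
    · have h1 := congrFun (congrArg Prod.snd h) v
      simp only [hv, if_true, decide_eq_decide] at h1
      exact h1
    · exact ⟨fun h' => absurd (hT1 h') hv, fun h' => absurd (hT2 h') hv⟩

theorem not_comp_zero {Y : Type} {N : ℕ} (F : Finset (Pt Y N)) (ρ : Equiv.Perm (Fin N))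
    (x : Pt Y N) : ¬ Comp F (A ρ 0) x := by
  rintro ⟨y, -, hne, ha⟩
  apply hne
  refine Prod.ext ha.1.symm (funext fun v => (ha.2 v ?_).symm)
  rw [mem_A]
  omega

end Kraft

open Kraft in
theorem kraft {Y : Type} [Fintype Y] {N : ℕ} (F : Finset (Pt Y N)) (ρ : Equiv.Perm (Fin N)) :
    ∑ m ∈ range (N + 1), 2 ^ m * (F.filter (fun x => ¬ Comp F (A ρ m) x)).card ≤
      2 * (Fintype.card Y * 2 ^ N) := by
  obtain ⟨t, ht⟩ : ∃ t : Pt Y N → ℕ, t = fun x =>
    Nat.findGreatest (fun m => ¬ Comp F (A ρ m) x) N := ⟨_, rfl⟩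
  have ht1 : ∀ x, ¬ Comp F (A ρ (t x)) x := fun x => by
    rw [ht]
    exact Nat.findGreatest_spec (P := fun m => ¬ Comp F (A ρ m) x) (Nat.zero_le N)
      (not_comp_zero F ρ x)
  have ht2 : ∀ x, t x ≤ N := fun x => by rw [ht]; exact Nat.findGreatest_le N
  have ht3 : ∀ x m, m ≤ N → ¬ Comp F (A ρ m) x → m ≤ t x := fun x m hm h => by
    rw [ht]; exact Nat.le_findGreatest hm h
  -- the cells
  have hcell : ∑ x ∈ F, 2 ^ t x ≤ Fintype.card Y * 2 ^ N := by
    calc ∑ x ∈ F, 2 ^ t x ≤ ∑ x ∈ F, (univ.filter (fun w : Pt Y N => Agr (A ρ (t x)) x w)).card := by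
          refine sum_le_sum fun x _ => ?_
          have h := card_cell (A ρ (t x)) x
          rwa [card_A ρ (ht2 x)] at h
      _ = (F.biUnion fun x => univ.filter (fun w : Pt Y N => Agr (A ρ (t x)) x w)).card := by
          rw [card_biUnion]
          have key : ∀ x ∈ F, ∀ x' ∈ F, x ≠ x' → t x ≤ t x' → Disjoint
              (univ.filter (fun w : Pt Y N => Agr (A ρ (t x)) x w))
              (univ.filter (fun w : Pt Y N => Agr (A ρ (t x')) x' w)) := by
            intro x hx x' hx' hne hle
            rw [Finset.disjoint_left]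
            intro w hw hw'
            rw [mem_filter] at hw hw'
            refine ht1 x' ⟨x, hx, hne, ?_⟩
            exact hw'.2.trans (hw.2.mono (A_mono ρ hle)).symm
          intro x hx x' hx' hne
          rcases le_total (t x) (t x') with h | h
          · exact key x hx x' hx' hne h
          · exact (key x' hx' x hx hne.symm h).symm
      _ ≤ (univ : Finset (Pt Y N)).card := card_le_card (subset_univ _)
      _ = Fintype.card Y * 2 ^ N := by
          rw [card_univ, Fintype.card_prod, Fintype.card_fun, Fintype.card_bool, Fintype.card_fin]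
  calc ∑ m ∈ range (N + 1), 2 ^ m * (F.filter (fun x => ¬ Comp F (A ρ m) x)).card
      = ∑ m ∈ range (N + 1), ∑ x ∈ F, if ¬ Comp F (A ρ m) x then 2 ^ m else 0 := by
        refine sum_congr rfl fun m _ => ?_
        rw [← sum_filter, sum_const, smul_eq_mul, mul_comm]
    _ = ∑ x ∈ F, ∑ m ∈ range (N + 1), if ¬ Comp F (A ρ m) x then 2 ^ m else 0 := sum_comm
    _ ≤ ∑ x ∈ F, 2 * 2 ^ t x := by
        refine sum_le_sum fun x _ => ?_
        rw [← sum_filter]
        calc _ ≤ ∑ m ∈ range (t x + 1), 2 ^ m := by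
              refine sum_le_sum_of_subset fun m hm => ?_
              rw [mem_filter, mem_range] at hm
              rw [mem_range]
              have := ht3 x m (by omega) hm.2
              omega
          _ ≤ 2 * 2 ^ t x := by
              have h := Nat.geomSum_eq (m := 2) le_rfl (t x + 1)
              rw [h, pow_succ]
              simp only [Nat.add_one_sub_one, Nat.div_one]
              omega
    _ = 2 * ∑ x ∈ F, 2 ^ t x := by rw [mul_sum]
    _ ≤ 2 * (Fintype.card Y * 2 ^ N) := Nat.mul_le_mul_left _ hcell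

end Pool.Agent.TH271.FF
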