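import Pool.Agent.TH271.FF.Defs

set_option autoImplicit false

namespace Pool.Agent.TH271.FF

open Finset
open scoped Classical

namespace Main

/-- members whose difference sets with the focus are disjoint and nonempty form a focal family -/
lemma focal_of_label {n s : ℕ} (x₀ : Fin n → Bool) (y : Fin s → Fin n → Bool) (c : Fin n → ℕ)
    (hne : ∀ j, y j ≠ x₀) (hc : ∀ j i, y j i ≠ x₀ i → c i = j.val) : Focal s x₀ y := by
  refine ⟨?_, hne, ?_⟩
  · intro j j' h
    obtain ⟨i, hi⟩ := Function.ne_iff.1 (hne j)
    have h1 := hc j i hi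
    rw [h] at hi
    have h2 := hc j' i hi
    exact Fin.ext (h1.symm.trans h2)
  · intro i
    rw [Finset.card_le_one]
    intro j hj j' hj'
    rw [mem_filter] at hj hj'
    exact Fin.ext ((hc j i hj.2).symm.trans (hc j' i hj'.2))

/-- the number of points of `F` which are alone in `B` -/
lemma card_alone {n : ℕ} (F : Finset (Fin n → Bool)) (B : Finset (Fin n)) (b : ℕ)
    (hb : b ≤ B.card) :
    (F.filter (fun x => ∀ y ∈ F, (∀ i, i ∉ B → y i = x i) → y = x)).card ≤ 2 ^ (n - b) := by
  have h1 : (F.filter (fun x => ∀ y ∈ F, (∀ i, i ∉ B → y i = x i) → y = x)).card ≤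
      (univ : Finset ({i : Fin n // i ∉ B} → Bool)).card := by
    refine Finset.card_le_card_of_injOn (fun x i => x i.1) (fun _ _ => mem_coe.2 (mem_univ _)) ?_
    intro x hx y hy hxy
    have hx' := (mem_filter.1 (mem_coe.1 hx))
    have hy' := (mem_filter.1 (mem_coe.1 hy))
    refine hy'.2 x hx'.1 (fun i hi => ?_)
    exact congrFun hxy ⟨i, hi⟩
  have h2 : Fintype.card {i : Fin n // i ∉ B} = n - B.card := by
    rw [Fintype.card_subtype_compl, Fintype.card_fin, Fintype.card_coe]
  rw [Finset.card_univ, Fintype.card_fun, Fintype.card_bool, h2] at h1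
  exact h1.trans (Nat.pow_le_pow_right (by norm_num) (by omega))

/-- the block `[l, l + b)` -/
def blk (n l b : ℕ) : Finset (Fin n) := univ.filter (fun i => l ≤ i.val ∧ i.val < l + b)

lemma card_blk (n l b : ℕ) (h : l + b ≤ n) : b ≤ (blk n l b).card := by
  have h1 : (univ : Finset (Fin b)).card ≤ (blk n l b).card := by
    refine Finset.card_le_card_of_injOn (fun i => ⟨l + i.val, by omega⟩) ?_ ?_
    · intro i _
      have := i.2
      simp [blk]
    · intro i _ j _ hij
      simp only [Fin.mk.injEq] at hij
      exact Fin.ext (by omega)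
  simpa using h1

/-- splitting the coordinates -/
def split (m r : ℕ) (x : Fin (m + r) → Bool) : Pt (Fin r → Bool) m :=
  (fun i => x (Fin.natAdd m i), fun i => x (Fin.castAdd r i))

lemma split_inj (m r : ℕ) : Function.Injective (split m r) := by
  intro x y h
  have h1 : ∀ i, x (Fin.natAdd m i) = y (Fin.natAdd m i) := fun i => congrFun (congrArg Prod.fst h) i
  have h2 : ∀ i, x (Fin.castAdd r i) = y (Fin.castAdd r i) :=
    fun i => congrFun (congrArg Prod.snd h) i
  funext i
  exact Fin.addCases (motive := fun i => x i = y i) h2 h1 i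

end Main

open Main

theorem main_of_core (hcore : Core) (s : ℕ) (hs : 2 ≤ s) (f : ℕ) :
    ∃ n₀ : ℕ, ∀ n ≥ n₀, ∀ F : Finset (Fin n → Bool),
      (∀ x₀ ∈ F, ∀ y : Fin s → Fin n → Bool, (∀ j, y j ∈ F) → ¬ Focal s x₀ y) →
      2 ^ f * F.card ≤ 2 ^ (n - n / s) := by
  obtain ⟨a, rfl⟩ : ∃ a, s = a + 2 := ⟨s - 2, by omega⟩
  set k : ℕ := f + 1 + (a + 2) with hk
  obtain ⟨h₀, hh₀⟩ := hcore (f + 1 + a * k)
  refine ⟨(h₀ + a * k) * (a + 2), fun n hn F hF => ?_⟩
  set q : ℕ := n / (a + 2) with hq
  have hq1 : h₀ + a * k ≤ q := (Nat.le_div_iff_mul_le (by omega)).2 hn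
  have hq2 : q * (a + 2) ≤ n := Nat.div_mul_le_self n (a + 2)
  obtain ⟨h, hh⟩ : ∃ h, q = h + a * k := ⟨q - a * k, by omega⟩
  have hhh : h₀ ≤ h := by omega
  set β : ℕ := q + k with hβ
  have hfit : 2 * h + a * β ≤ n := by
    have e1 : q * (a + 2) = 2 * h + 2 * (a * k) + a * q := by
      rw [Nat.mul_add, Nat.mul_comm q a]
      omega
    have e2 : a * β = a * q + a * k := by rw [hβ, Nat.mul_add]
    omega
  clear_value q
  obtain ⟨r, rfl⟩ : ∃ r, n = 2 * h + r := ⟨n - 2 * h, by omega⟩
  have hr : a * β ≤ r := by omega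
  -- the points that are not alone in any block
  set B : ℕ → Finset (Fin (2 * h + r)) := fun t => blk (2 * h + r) (2 * h + t * β) β with hB
  set G : Finset (Fin (2 * h + r) → Bool) := F.filter (fun x => ∀ t < a,
    ∃ y ∈ F, (∀ i, i ∉ B t → y i = x i) ∧ y ≠ x) with hG
  have hGF : G ⊆ F := filter_subset _ _
  have hcardF : F.card ≤ G.card + a * 2 ^ (2 * h + r - β) := by
    have h1 : F ⊆ G ∪ (range a).biUnion (fun t =>
        F.filter (fun x => ∀ y ∈ F, (∀ i, i ∉ B t → y i = x i) → y = x)) := by
      intro x hx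
      by_cases hxG : x ∈ G
      · exact mem_union_left _ hxG
      · refine mem_union_right _ ?_
        rw [hG, mem_filter] at hxG
        push Not at hxG
        obtain ⟨t, ht, htx⟩ := hxG hx
        rw [mem_biUnion]
        exact ⟨t, mem_range.2 ht, mem_filter.2 ⟨hx, htx⟩⟩
    refine (card_le_card h1).trans ((card_union_le _ _).trans (Nat.add_le_add_left ?_ _))
    refine card_biUnion_le.trans ?_
    have h2 : ∀ t ∈ range a, (F.filter (fun x => ∀ y ∈ F, (∀ i, i ∉ B t → y i = x i) → y = x)).card
        ≤ 2 ^ (2 * h + r - β) := by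
      intro t ht
      refine card_alone F (B t) β (card_blk _ _ _ ?_)
      have h3 : t * β + β ≤ a * β := by
        have h4 : (t + 1) * β ≤ a * β := Nat.mul_le_mul_right β (mem_range.1 ht)
        rwa [Nat.succ_mul] at h4
      omega
    refine (sum_le_sum h2).trans ?_
    rw [sum_const, card_range, smul_eq_mul]
  have hcoreG : 2 ^ (f + 1 + a * k) * G.card ≤ 2 ^ r * 2 ^ h := by
    have h1 := hh₀ h hhh (Fin r → Bool) (G.image (split (2 * h) r)) ?_
    · rw [card_image_of_injective _ (split_inj _ _)] at h1
      simpa using h1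
    · rintro x' hx' S ⟨⟨y', hy', hy'x, hyA⟩, ⟨z', hz', hz'x, hzA⟩⟩
      obtain ⟨x, hx, rfl⟩ := mem_image.1 hx'
      obtain ⟨y, hy, rfl⟩ := mem_image.1 hy'
      obtain ⟨z, hz, rfl⟩ := mem_image.1 hz'
      have hyx : y ≠ x := fun h => hy'x (by rw [h])
      have hzx : z ≠ x := fun h => hz'x (by rw [h])
      have hxG := (mem_filter.1 hx).2
      choose! w hwF hwA hwx using hxG
      let Y : Fin (a + 2) → Fin (2 * h + r) → Bool := fun j =>
        if j.val = 0 then y else if j.val = 1 then z else w (j.val - 2)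
      let c : Fin (2 * h + r) → ℕ := fun i =>
        if hi : i.val < 2 * h then (if (⟨i.val, hi⟩ : Fin (2 * h)) ∈ S then 0 else 1)
        else 2 + (i.val - 2 * h) / β
      have hY0 : ∀ j : Fin (a + 2), j.val = 0 → Y j = y := fun j hj => if_pos hj
      have hY1 : ∀ j : Fin (a + 2), j.val = 1 → Y j = z := fun j hj => by
        simp only [Y]
        rw [if_neg (by omega), if_pos hj]
      have hY2 : ∀ j : Fin (a + 2), 2 ≤ j.val → Y j = w (j.val - 2) := fun j hj => by
        simp only [Y]
        rw [if_neg (by omega), if_neg (by omega)]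
      refine hF x (hGF hx) Y ?_ (focal_of_label x Y c ?_ ?_)
      · intro j
        rcases Nat.lt_or_ge j.val 2 with hj | hj
        · interval_cases hj' : j.val
          · rw [hY0 j hj']
            exact hGF hy
          · rw [hY1 j hj']
            exact hGF hz
        · rw [hY2 j hj]
          exact hwF _ (by omega)
      · intro j
        rcases Nat.lt_or_ge j.val 2 with hj | hj
        · interval_cases hj' : j.val
          · rw [hY0 j hj']
            exact hyx
          · rw [hY1 j hj']
            exact hzx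
        · rw [hY2 j hj]
          exact hwx _ (by omega)
      · intro j i hij
        -- difference of company inside the cube part
        have hcomp : ∀ (T : Finset (Fin (2 * h))) (u : Fin (2 * h + r) → Bool),
            Agr T (split (2 * h) r x) (split (2 * h) r u) → u i ≠ x i →
            ∃ hi : i.val < 2 * h, (⟨i.val, hi⟩ : Fin (2 * h)) ∈ T := by
          intro T u hT hu
          by_cases hi : i.val < 2 * h
          · refine ⟨hi, ?_⟩
            by_contra hcon
            have h1 := hT.2 ⟨i.val, hi⟩ hcon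
            exact hu h1.symm
          · exfalso
            have h1 := congrFun hT.1 ⟨i.val - 2 * h, by omega⟩
            have h2 : Fin.natAdd (2 * h) (⟨i.val - 2 * h, by omega⟩ : Fin r) = i :=
              Fin.ext (by simp only [Fin.natAdd_mk]; omega)
            simp only [split] at h1
            rw [h2] at h1
            exact hu h1.symm
        rcases Nat.lt_or_ge j.val 2 with hj | hj
        · interval_cases hj' : j.val
          · rw [hY0 j hj'] at hij
            obtain ⟨hi, hiS⟩ := hcomp S y hyA hij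
            simp only [c]
            rw [dif_pos hi, if_pos hiS]
          · rw [hY1 j hj'] at hij
            obtain ⟨hi, hiS⟩ := hcomp Sᶜ z hzA hij
            simp only [c]
            rw [dif_pos hi, if_neg (mem_compl.1 hiS)]
        · rw [hY2 j hj] at hij
          have hjt : j.val - 2 < a := by omega
          have hiB : i ∈ B (j.val - 2) := by
            by_contra hcon
            exact hij (hwA _ hjt i hcon)
          simp only [hB, blk, mem_filter, mem_univ, true_and] at hiB
          obtain ⟨h1, h2⟩ := hiB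
          have hi : ¬ i.val < 2 * h := by omega
          simp only [c]
          rw [dif_neg hi]
          have h3 : (i.val - 2 * h) / β = j.val - 2 := by
            refine Nat.div_eq_of_lt_le ?_ ?_
            · omega
            · have h4 : (j.val - 2 + 1) * β = (j.val - 2) * β + β := Nat.succ_mul _ _
              omega
          rw [h3]
          omega
  -- the count
  have hak : a * k ≤ r := by
    have : a * β = a * q + a * k := by rw [hβ, Nat.mul_add]
    omega
  set N : ℕ := 2 * h + r - q with hN
  have e1 : 2 ^ r * 2 ^ h = 2 ^ N * 2 ^ (a * k) := by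
    rw [← pow_add, ← pow_add]
    congr 1
    omega
  have e2 : 2 ^ (f + 1) * G.card ≤ 2 ^ N := by
    rw [e1, pow_add 2 (f + 1) (a * k)] at hcoreG
    have h1 : (0 : ℕ) < 2 ^ (a * k) := by positivity
    refine Nat.le_of_mul_le_mul_right ?_ h1
    calc 2 ^ (f + 1) * G.card * 2 ^ (a * k) = 2 ^ (f + 1) * 2 ^ (a * k) * G.card := by ring
      _ ≤ _ := hcoreG
  have e3 : 2 ^ (f + 1) * (a * 2 ^ (2 * h + r - β)) ≤ 2 ^ N := by
    rcases Nat.eq_zero_or_pos a with ha | ha
    · rw [ha]
      simp
    · have h1 : β ≤ a * β := Nat.le_mul_of_pos_left β ha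
      have h2 : N = k + (2 * h + r - β) := by omega
      have h3 : a + 2 < 2 ^ (a + 2) := Nat.lt_two_pow_self
      calc 2 ^ (f + 1) * (a * 2 ^ (2 * h + r - β)) ≤
          2 ^ (f + 1) * (2 ^ (a + 2) * 2 ^ (2 * h + r - β)) := by
            refine Nat.mul_le_mul_left _ (Nat.mul_le_mul_right _ ?_)
            omega
        _ = 2 ^ N := by
            rw [h2, hk]
            ring
  have e4 : 2 ^ (f + 1) * F.card ≤ 2 ^ (f + 1) * G.card + 2 ^ (f + 1) * (a * 2 ^ (2 * h + r - β)) := by
    rw [← mul_add]
    exact Nat.mul_le_mul_left _ hcardF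
  have e5 : 2 ^ (f + 1) * F.card = 2 * (2 ^ f * F.card) := by rw [pow_succ]; ring
  omega

end Pool.Agent.TH271.FF
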