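import Pool.Agent.TH271.FF.Core
import Pool.Agent.TH271.FF.Main

set_option autoImplicit false

namespace Pool.Agent.TH271.FF

open Finset
open scoped Classical

open Main

theorem main_quant (a f n : ℕ)
    (hn : (2 ^ (8 * (f + 1 + a * (f + 1 + (a + 2))) + 46) + a * (f + 1 + (a + 2))) * (a + 2) ≤ n)
    (F : Finset (Fin n → Bool))
    (hF : ∀ x₀ ∈ F, ∀ y : Fin (a + 2) → Fin n → Bool, (∀ j, y j ∈ F) → ¬ Focal (a + 2) x₀ y) :
    2 ^ f * F.card ≤ 2 ^ (n - n / (a + 2)) := by
  set k : ℕ := f + 1 + (a + 2) with hk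
  obtain ⟨h₀, hh₀e⟩ : ∃ h₀ : ℕ, h₀ = 2 ^ (8 * (f + 1 + a * k) + 46) := ⟨_, rfl⟩
  have hh₀ : ∀ h ≥ h₀, ∀ (Y : Type) [Fintype Y] (F : Finset (Pt Y (2 * h))),
    (∀ x ∈ F, ∀ S : Finset (Fin (2 * h)), ¬ (Comp F S x ∧ Comp F Sᶜ x)) →
    2 ^ (f + 1 + a * k) * F.card ≤ Fintype.card Y * 2 ^ h :=
    fun h hh Y _ F hF => CoreProof.core_quant (f + 1 + a * k) h (hh₀e ▸ hh) Y F hF
  rw [← hh₀e] at hn
  set q : ℕ := n / (a + 2) with hq
  have hq1 : h₀ + a * k ≤ q := (Nat.le_div_iff_mul_le (by omega)).2 hn
  have hq2 : q * (a + 2) ≤ n := Nat.div_mul_le_self n (a + 2)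
  obtain ⟨h, hh⟩ : ∃ h, q = h + a * k := ⟨q - a * k, by omega⟩
  have hhh : h₀ ≤ h := by omega
  set β : ℕ := q + k with hβ
  have hfit : 2 * h + a * β ≤ n := by
    have e1 : q * (a + 2) = 2 * h + 2 * (a * k) + a * q := by
      rw [Nat.mul_add, Nat.mul_comm q a]
      omega
    have e2 : a * β = a * q + a * k := by rw [hβ, Nat.mul_add]
    omega
  clear_value q
  obtain ⟨r, rfl⟩ : ∃ r, n = 2 * h + r := ⟨n - 2 * h, by omega⟩
  have hr : a * β ≤ r := by omega
  -- the points that are not alone in any block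
  set B : ℕ → Finset (Fin (2 * h + r)) := fun t => blk (2 * h + r) (2 * h + t * β) β with hB
  set G : Finset (Fin (2 * h + r) → Bool) := F.filter (fun x => ∀ t < a,
    ∃ y ∈ F, (∀ i, i ∉ B t → y i = x i) ∧ y ≠ x) with hG
  have hGF : G ⊆ F := filter_subset _ _
  have hcardF : F.card ≤ G.card + a * 2 ^ (2 * h + r - β) := by
    have h1 : F ⊆ G ∪ (range a).biUnion (fun t =>
        F.filter (fun x => ∀ y ∈ F, (∀ i, i ∉ B t → y i = x i) → y = x)) := by
      intro x hx
      by_cases hxG : x ∈ G
      · exact mem_union_left _ hxG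
      · refine mem_union_right _ ?_
        rw [hG, mem_filter] at hxG
        push Not at hxG
        obtain ⟨t, ht, htx⟩ := hxG hx
        rw [mem_biUnion]
        exact ⟨t, mem_range.2 ht, mem_filter.2 ⟨hx, htx⟩⟩
    refine (card_le_card h1).trans ((card_union_le _ _).trans (Nat.add_le_add_left ?_ _))
    refine card_biUnion_le.trans ?_
    have h2 : ∀ t ∈ range a, (F.filter (fun x => ∀ y ∈ F, (∀ i, i ∉ B t → y i = x i) → y = x)).card
        ≤ 2 ^ (2 * h + r - β) := by
      intro t ht
      refine card_alone F (B t) β (card_blk _ _ _ ?_)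
      have h3 : t * β + β ≤ a * β := by
        have h4 : (t + 1) * β ≤ a * β := Nat.mul_le_mul_right β (mem_range.1 ht)
        rwa [Nat.succ_mul] at h4
      omega
    refine (sum_le_sum h2).trans ?_
    rw [sum_const, card_range, smul_eq_mul]
  have hcoreG : 2 ^ (f + 1 + a * k) * G.card ≤ 2 ^ r * 2 ^ h := by
    have h1 := hh₀ h hhh (Fin r → Bool) (G.image (split (2 * h) r)) ?_
    · rw [card_image_of_injective _ (split_inj _ _)] at h1
      simpa using h1
    · rintro x' hx' S ⟨⟨y', hy', hy'x, hyA⟩, ⟨z', hz', hz'x, hzA⟩⟩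
      obtain ⟨x, hx, rfl⟩ := mem_image.1 hx'
      obtain ⟨y, hy, rfl⟩ := mem_image.1 hy'
      obtain ⟨z, hz, rfl⟩ := mem_image.1 hz'
      have hyx : y ≠ x := fun h => hy'x (by rw [h])
      have hzx : z ≠ x := fun h => hz'x (by rw [h])
      have hxG := (mem_filter.1 hx).2
      choose! w hwF hwA hwx using hxG
      let Y : Fin (a + 2) → Fin (2 * h + r) → Bool := fun j =>
        if j.val = 0 then y else if j.val = 1 then z else w (j.val - 2)
      let c : Fin (2 * h + r) → ℕ := fun i =>
        if hi : i.val < 2 * h then (if (⟨i.val, hi⟩ : Fin (2 * h)) ∈ S then 0 else 1)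
        else 2 + (i.val - 2 * h) / β
      have hY0 : ∀ j : Fin (a + 2), j.val = 0 → Y j = y := fun j hj => if_pos hj
      have hY1 : ∀ j : Fin (a + 2), j.val = 1 → Y j = z := fun j hj => by
        simp only [Y]
        rw [if_neg (by omega), if_pos hj]
      have hY2 : ∀ j : Fin (a + 2), 2 ≤ j.val → Y j = w (j.val - 2) := fun j hj => by
        simp only [Y]
        rw [if_neg (by omega), if_neg (by omega)]
      refine hF x (hGF hx) Y ?_ (focal_of_label x Y c ?_ ?_)
      · intro j
        rcases Nat.lt_or_ge j.val 2 with hj | hj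
        · interval_cases hj' : j.val
          · rw [hY0 j hj']
            exact hGF hy
          · rw [hY1 j hj']
            exact hGF hz
        · rw [hY2 j hj]
          exact hwF _ (by omega)
      · intro j
        rcases Nat.lt_or_ge j.val 2 with hj | hj
        · interval_cases hj' : j.val
          · rw [hY0 j hj']
            exact hyx
          · rw [hY1 j hj']
            exact hzx
        · rw [hY2 j hj]
          exact hwx _ (by omega)
      · intro j i hij
        -- difference of company inside the cube part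
        have hcomp : ∀ (T : Finset (Fin (2 * h))) (u : Fin (2 * h + r) → Bool),
            Agr T (split (2 * h) r x) (split (2 * h) r u) → u i ≠ x i →
            ∃ hi : i.val < 2 * h, (⟨i.val, hi⟩ : Fin (2 * h)) ∈ T := by
          intro T u hT hu
          by_cases hi : i.val < 2 * h
          · refine ⟨hi, ?_⟩
            by_contra hcon
            have h1 := hT.2 ⟨i.val, hi⟩ hcon
            exact hu h1.symm
          · exfalso
            have h1 := congrFun hT.1 ⟨i.val - 2 * h, by omega⟩
            have h2 : Fin.natAdd (2 * h) (⟨i.val - 2 * h, by omega⟩ : Fin r) = i :=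
              Fin.ext (by simp only [Fin.natAdd_mk]; omega)
            simp only [split] at h1
            rw [h2] at h1
            exact hu h1.symm
        rcases Nat.lt_or_ge j.val 2 with hj | hj
        · interval_cases hj' : j.val
          · rw [hY0 j hj'] at hij
            obtain ⟨hi, hiS⟩ := hcomp S y hyA hij
            simp only [c]
            rw [dif_pos hi, if_pos hiS]
          · rw [hY1 j hj'] at hij
            obtain ⟨hi, hiS⟩ := hcomp Sᶜ z hzA hij
            simp only [c]
            rw [dif_pos hi, if_neg (mem_compl.1 hiS)]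
        · rw [hY2 j hj] at hij
          have hjt : j.val - 2 < a := by omega
          have hiB : i ∈ B (j.val - 2) := by
            by_contra hcon
            exact hij (hwA _ hjt i hcon)
          simp only [hB, blk, mem_filter, mem_univ, true_and] at hiB
          obtain ⟨h1, h2⟩ := hiB
          have hi : ¬ i.val < 2 * h := by omega
          simp only [c]
          rw [dif_neg hi]
          have h3 : (i.val - 2 * h) / β = j.val - 2 := by
            refine Nat.div_eq_of_lt_le ?_ ?_
            · omega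
            · have h4 : (j.val - 2 + 1) * β = (j.val - 2) * β + β := Nat.succ_mul _ _
              omega
          rw [h3]
          omega
  -- the count
  have hak : a * k ≤ r := by
    have : a * β = a * q + a * k := by rw [hβ, Nat.mul_add]
    omega
  set N : ℕ := 2 * h + r - q with hN
  have e1 : 2 ^ r * 2 ^ h = 2 ^ N * 2 ^ (a * k) := by
    rw [← pow_add, ← pow_add]
    congr 1
    omega
  have e2 : 2 ^ (f + 1) * G.card ≤ 2 ^ N := by
    rw [e1, pow_add 2 (f + 1) (a * k)] at hcoreG
    have h1 : (0 : ℕ) < 2 ^ (a * k) := by positivity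
    refine Nat.le_of_mul_le_mul_right ?_ h1
    calc 2 ^ (f + 1) * G.card * 2 ^ (a * k) = 2 ^ (f + 1) * 2 ^ (a * k) * G.card := by ring
      _ ≤ _ := hcoreG
  have e3 : 2 ^ (f + 1) * (a * 2 ^ (2 * h + r - β)) ≤ 2 ^ N := by
    rcases Nat.eq_zero_or_pos a with ha | ha
    · rw [ha]
      simp
    · have h1 : β ≤ a * β := Nat.le_mul_of_pos_left β ha
      have h2 : N = k + (2 * h + r - β) := by omega
      have h3 : a + 2 < 2 ^ (a + 2) := Nat.lt_two_pow_self
      calc 2 ^ (f + 1) * (a * 2 ^ (2 * h + r - β)) ≤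
          2 ^ (f + 1) * (2 ^ (a + 2) * 2 ^ (2 * h + r - β)) := by
            refine Nat.mul_le_mul_left _ (Nat.mul_le_mul_right _ ?_)
            omega
        _ = 2 ^ N := by
            rw [h2, hk]
            ring
  have e4 : 2 ^ (f + 1) * F.card ≤ 2 ^ (f + 1) * G.card + 2 ^ (f + 1) * (a * 2 ^ (2 * h + r - β)) := by
    rw [← mul_add]
    exact Nat.mul_le_mul_left _ hcardF
  have e5 : 2 ^ (f + 1) * F.card = 2 * (2 ^ f * F.card) := by rw [pow_succ]; ring
  omega

end Pool.Agent.TH271.FF
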